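import Mathlib

/-!
# Zilber-Pink in `Y(1)^n`: the definitions used in the statement

`jfun` is the modular invariant, `Isog` the isogeny relation, `IsCM` complex multiplication and
`specialDim` the dimension of the smallest special subvariety of `Y(1)^n` through a point.
-/

namespace ZP38

open UpperHalfPlane MvPolynomial

/-- The modular function `j = E₄ ^ 3 / Δ`. -/
noncomputable def jfun (τ : ℍ) : ℂ := ModularForm.E₄ τ ^ 3 / ModularForm.discriminant τ

/-- The elliptic curves of parameters `τ` and `τ'` are isogenous. -/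
def Isog (τ τ' : ℍ) : Prop :=
  ∃ a b c d : ℤ, 0 < a * d - b * c ∧ (τ' : ℂ) * (c * (τ : ℂ) + d) = a * (τ : ℂ) + b

/-- The elliptic curve of parameter `τ` has complex multiplication. -/
def IsCM (τ : ℍ) : Prop :=
  ∃ a b c : ℤ, a ≠ 0 ∧ (a : ℂ) * (τ : ℂ) ^ 2 + b * (τ : ℂ) + c = 0

/-- The number of isogeny classes among the coordinates without complex multiplication; this is the
dimension of the smallest special subvariety of `Y(1)^n` containing the point. -/
noncomputable def specialDim {n : ℕ} (τ : Fin n → ℍ) : ℕ :=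
  Set.ncard {S : Set (Fin n) | ∃ i, ¬ IsCM (τ i) ∧ S = {k | Isog (τ i) (τ k)}}

/-- The integral closure in `ℂ` of the ring `ℤ[𝒯]` generated by a set `𝒯` of complex numbers. -/
noncomputable def Bring (𝒯 : Set ℂ) : Subring ℂ :=
  (integralClosure (Algebra.adjoin ℤ 𝒯) ℂ).toSubring

/-- The zero set of the polynomials `f`. -/
def OnX {m r : ℕ} {B : Subring ℂ} (f : Fin r → MvPolynomial (Fin (m + 1)) B)
    (z : Fin (m + 1) → ℂ) : Prop :=
  ∀ k, MvPolynomial.aeval z (f k) = 0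

/-- Polynomials in `m + 1` variables with coefficients in the integral closure of `ℤ[𝒯]`. -/
abbrev Poly (𝒯 : Set ℂ) (m : ℕ) : Type := MvPolynomial (Fin (m + 1)) (Bring 𝒯)

/-- The rational map `(N i / D i)` is defined at `z` and takes the value `(j (τ i))`. -/
def MapsTo {𝒯 : Set ℂ} {m n : ℕ} (N D : Fin n → Poly 𝒯 m) (z : Fin (m + 1) → ℂ)
    (τ : Fin n → ℍ) : Prop :=
  ∀ i, aeval z (D i) ≠ 0 ∧ jfun (τ i) * aeval z (D i) = aeval z (N i)

/-- `N i = P i (L) + M Z i` and `D i = Q i (L) + M W i` with forms `Z i`, `W i` of degree `e i`. -/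
def InClass {𝒯 : Set ℂ} {m n d : ℕ} (L : Fin (d + 1) → Poly 𝒯 m) (e : Fin n → ℕ) (M : ℕ)
    (P Q : Fin n → MvPolynomial (Fin (d + 1)) ℤ) (N D : Fin n → Poly 𝒯 m) : Prop :=
  ∃ Z W : Fin n → Poly 𝒯 m, (∀ i, (Z i).IsHomogeneous (e i) ∧ (W i).IsHomogeneous (e i)) ∧
    ∀ i, N i = aeval L (P i) + M • Z i ∧ D i = aeval L (Q i) + M • W i

/-- The forms `N i`, `i < d`, and any `D i` have no common zero on `X`. -/
def FiniteCert {𝒯 : Set ℂ} {m n r : ℕ} (f : Fin r → Poly 𝒯 m) (N D : Fin n → Poly 𝒯 m)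
    (d : ℕ) : Prop :=
  ∀ z : Fin (m + 1) → ℂ, OnX f z → (∀ i : Fin n, (i : ℕ) < d → aeval z (N i) = 0) →
    (∃ i, aeval z (D i) = 0) → z = 0

/-- The rational map is defined at `z₀` and its value satisfies no special relation. -/
def GenericAt {𝒯 : Set ℂ} {m n : ℕ} (N D : Fin n → Poly 𝒯 m) (z₀ : Fin (m + 1) → ℂ) : Prop :=
  (∀ i, aeval z₀ (D i) ≠ 0) ∧ ∀ τ : Fin n → ℍ, MapsTo N D z₀ τ →
    (∀ i, ¬ IsCM (τ i)) ∧ ∀ i k, i ≠ k → ¬ Isog (τ i) (τ k)

/-- No point of `X` is mapped into a special subvariety of `Y(1)^n` of codimension larger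
than `d`. -/
def NoUnlikely {𝒯 : Set ℂ} {m n r : ℕ} (f : Fin r → Poly 𝒯 m) (N D : Fin n → Poly 𝒯 m)
    (d : ℕ) : Prop :=
  ∀ (z : Fin (m + 1) → ℂ) (τ : Fin n → ℍ), OnX f z → MapsTo N D z τ → n ≤ specialDim τ + d

end ZP38
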