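import Mathlib
import Pool.Agent.LibZP38.Stmt

/-!
# Zilber-Pink in `Y(1)^n`: auxiliary definitions
-/

namespace ZP38

open UpperHalfPlane

/-- The ring of all algebraic integers in `ℂ`. -/
abbrev Oalg : Subalgebra ℤ ℂ := integralClosure ℤ ℂ

/-! ### Puiseux expansions -/

/-- `exp (2 π i τ / N)`. -/
noncomputable def wp (N : ℕ) (τ : ℍ) : ℂ :=
  Complex.exp (2 * Real.pi * Complex.I * (τ : ℂ) / N)

/-- `F = ∑ c n * wp N τ ^ (n - m)`. -/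
def HasQ (N m : ℕ) (c : ℕ → ℂ) (F : ℍ → ℂ) : Prop :=
  ∀ τ : ℍ, HasSum (fun n : ℕ => c n * wp N τ ^ ((n : ℤ) - (m : ℤ))) (F τ)

/-- `F` has an expansion with algebraic integers as coefficients, of pole order at most `m`, with
`u` as the coefficient of `wp N τ ^ (-m)`. -/
def IntQ (N m : ℕ) (u : ℂ) (F : ℍ → ℂ) : Prop :=
  ∃ c : ℕ → ℂ, c 0 = u ∧ (∀ n, IsIntegral ℤ (c n)) ∧ HasQ N m c F

/-- Invariance under `SL(2, ℤ)`. -/
def Inv (F : ℍ → ℂ) : Prop := ∀ (γ : Matrix.SpecialLinearGroup (Fin 2) ℤ) (τ : ℍ), F (γ • τ) = F τ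

/-- Holomorphy. -/
def Hol (F : ℍ → ℂ) : Prop :=
  MDifferentiable (modelWithCornersSelf ℂ ℂ) (modelWithCornersSelf ℂ ℂ) F

/-- `j ((a τ + b) / (c τ + d))`. -/
noncomputable def jm (A : Matrix (Fin 2) (Fin 2) ℤ) (τ : ℍ) : ℂ :=
  jfun (ofComplex ((A 0 0 * (τ : ℂ) + A 0 1) / (A 1 0 * (τ : ℂ) + A 1 1)))

/-- The pairs `(a, b)` with `a ∣ N` and `0 ≤ b < N / a`. -/
def idx (N : ℕ) : Finset (ℕ × ℕ) :=
  (N.divisors ×ˢ Finset.range N).filter (fun p => p.2 < N / p.1)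

/-- The matrix `(a, b; 0, N / a)`. -/
def hm (N : ℕ) (p : ℕ × ℕ) : Matrix (Fin 2) (Fin 2) ℤ := !![(p.1 : ℤ), (p.2 : ℤ); 0, ((N / p.1 : ℕ) : ℤ)]

/-! ### Patterns -/

/-- Symbols: `none` is `0`, `some (j, false)` is the `j`-th form and `some (j, true)` is `p` times
the `j`-th form. -/
def sval {d : ℕ} (p : ℂ) (a : Fin (d + 1) → ℂ) : Option (Fin (d + 1) × Bool) → ℂ
  | none => 0
  | some (j, false) => a j
  | some (j, true) => p * a j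

end ZP38
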