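import Mathlib
import Pool.Agent.LibZP38.Defs

/-! TASK ZP1: the ring of functions with integral Puiseux expansions. -/

namespace ZP38

open UpperHalfPlane Filter

theorem zp1_congr {f g : ℕ → ℂ} {a : ℂ} (h : HasSum g a) (e : ∀ n, f n = g n) : HasSum f a := by
  rw [funext e]
  exact h

theorem wp_ne_zero (N : ℕ) (τ : ℍ) : wp N τ ≠ 0 := Complex.exp_ne_zero _

theorem zp1_norm_wp (N : ℕ) (τ : ℍ) : ‖wp N τ‖ = Real.exp (-(2 * Real.pi * τ.im / N)) := by
  unfold wp
  rw [Complex.norm_exp]
  congr 1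
  have h : (2 * Real.pi * Complex.I * (τ : ℂ) / N : ℂ) =
      ((2 * Real.pi / N : ℝ) : ℂ) * (Complex.I * (τ : ℂ)) := by
    push_cast
    ring
  rw [h, Complex.re_ofReal_mul]
  simp only [Complex.mul_re, Complex.I_re, Complex.I_im, zero_mul, one_mul, zero_sub]
  rw [UpperHalfPlane.coe_im]
  ring

theorem norm_wp_lt_one {N : ℕ} (hN : 0 < N) (τ : ℍ) : ‖wp N τ‖ < 1 := by
  rw [zp1_norm_wp, Real.exp_lt_one_iff]
  have h1 := τ.im_pos
  have h2 := Real.pi_pos
  have h3 : (0 : ℝ) < N := by exact_mod_cast hN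
  have : 0 < 2 * Real.pi * τ.im / N := by positivity
  linarith

theorem intQ_const (N : ℕ) (x : ℂ) (hx : IsIntegral ℤ x) : IntQ N 0 x (fun _ => x) := by
  refine ⟨fun n => if n = 0 then x else 0, by simp, ?_, ?_⟩
  · intro n
    by_cases h : n = 0
    · simpa [h] using hx
    · simpa [h] using isIntegral_zero
  · intro τ
    have h := hasSum_ite_eq (0 : ℕ) x
    convert h using 1
    funext n
    by_cases hn : n = 0
    · simp [hn]
    · simp [hn]

theorem intQ_add {N m : ℕ} {u u' : ℂ} {F G : ℍ → ℂ} (hF : IntQ N m u F) (hG : IntQ N m u' G) :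
    IntQ N m (u + u') (fun τ => F τ + G τ) := by
  obtain ⟨c, hc0, hci, hc⟩ := hF
  obtain ⟨d, hd0, hdi, hd⟩ := hG
  refine ⟨fun n => c n + d n, by simp [hc0, hd0], fun n => (hci n).add (hdi n), ?_⟩
  intro τ
  have h := (hc τ).add (hd τ)
  convert h using 1
  funext n
  ring

theorem intQ_neg {N m : ℕ} {u : ℂ} {F : ℍ → ℂ} (hF : IntQ N m u F) :
    IntQ N m (-u) (fun τ => - F τ) := by
  obtain ⟨c, hc0, hci, hc⟩ := hF
  refine ⟨fun n => - c n, by simp [hc0], fun n => (hci n).neg, ?_⟩
  intro τ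
  refine zp1_congr (hc τ).neg fun n => ?_
  ring

theorem intQ_mul {N m m' : ℕ} (hN : 0 < N) {u u' : ℂ} {F G : ℍ → ℂ} (hF : IntQ N m u F)
    (hG : IntQ N m' u' G) : IntQ N (m + m') (u * u') (fun τ => F τ * G τ) := by
  obtain ⟨c, hc0, hci, hc⟩ := hF
  obtain ⟨d, hd0, hdi, hd⟩ := hG
  refine ⟨fun n => ∑ p ∈ Finset.HasAntidiagonal.antidiagonal n, c p.1 * d p.2, by simp [hc0, hd0], ?_, ?_⟩
  · intro n
    exact IsIntegral.sum _ fun p _ => (hci p.1).mul (hdi p.2)
  · intro τ
    have h1 := (hc τ).summable.norm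
    have h2 := (hd τ).summable.norm
    have h3 := tsum_mul_tsum_eq_tsum_sum_antidiagonal_of_summable_norm h1 h2
    have h4 := (summable_norm_sum_mul_antidiagonal_of_summable_norm h1 h2).of_norm.hasSum
    rw [← h3, (hc τ).tsum_eq, (hd τ).tsum_eq] at h4
    refine zp1_congr h4 fun n => ?_
    rw [Finset.sum_mul]
    apply Finset.sum_congr rfl
    intro p hp
    rw [Finset.HasAntidiagonal.mem_antidiagonal] at hp
    have hw := wp_ne_zero N τ
    have e : ((n : ℕ) : ℤ) - ((m + m' : ℕ) : ℤ) = ((p.1 : ℤ) - m) + ((p.2 : ℤ) - m') := by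
      rw [← hp]; push_cast; ring
    rw [e, zpow_add₀ hw]
    ring

/-- Raising the pole order. -/
theorem intQ_raise {N m : ℕ} {u : ℂ} {F : ℍ → ℂ} (hF : IntQ N m u F) (k : ℕ) (hk : 0 < k) :
    IntQ N (m + k) 0 F := by
  obtain ⟨c, hc0, hci, hc⟩ := hF
  refine ⟨fun n => if n < k then 0 else c (n - k), by simp [hk], ?_, ?_⟩
  · intro n
    by_cases h : n < k
    · simpa [h] using isIntegral_zero
    · simpa [h] using hci _
  · intro τ
    have hinj : Function.Injective (fun n : ℕ => n + k) := add_left_injective k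
    rw [← hinj.hasSum_iff]
    · convert hc τ using 1
      funext n
      simp only [Function.comp_apply]
      rw [if_neg (by omega), Nat.add_sub_cancel]
      congr 2
      push_cast
      ring
    · intro n hn
      have : n < k := by
        by_contra h
        exact hn ⟨n - k, by simp only; omega⟩
      simp [this]

/-- Lowering the pole order when the leading coefficient vanishes. -/
theorem intQ_lower {N m : ℕ} {F : ℍ → ℂ} (hF : IntQ N (m + 1) 0 F) :
    ∃ u, IsIntegral ℤ u ∧ IntQ N m u F := by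
  obtain ⟨c, hc0, hci, hc⟩ := hF
  refine ⟨c 1, hci 1, fun n => c (n + 1), rfl, fun n => hci _, ?_⟩
  intro τ
  have h := hc τ
  have hinj : Function.Injective (fun n : ℕ => n + 1) := add_left_injective 1
  rw [← hinj.hasSum_iff] at h
  · convert h using 1
    funext n
    simp only [Function.comp_apply]
    congr 2
    push_cast
    ring
  · intro n hn
    have : n = 0 := by
      by_contra h
      exact hn ⟨n - 1, by simp only; omega⟩
    simp [this, hc0]

theorem intQ_pow {N m : ℕ} (hN : 0 < N) {u : ℂ} {F : ℍ → ℂ} (hF : IntQ N m u F) (k : ℕ) :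
    IntQ N (k * m) (u ^ k) (fun τ => F τ ^ k) := by
  induction k with
  | zero =>
    simp only [Nat.zero_mul, pow_zero]
    exact intQ_const N 1 isIntegral_one
  | succ k ih =>
    have h := intQ_mul hN ih hF
    simp only [← pow_succ] at h
    rw [Nat.succ_mul]
    exact h

theorem intQ_prod {N : ℕ} (hN : 0 < N) {ι : Type*} (s : Finset ι) (m : ι → ℕ) (u : ι → ℂ)
    (F : ι → ℍ → ℂ) (hF : ∀ i ∈ s, IntQ N (m i) (u i) (F i)) :
    IntQ N (∑ i ∈ s, m i) (∏ i ∈ s, u i) (fun τ => ∏ i ∈ s, F i τ) := by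
  classical
  induction s using Finset.induction_on with
  | empty =>
    simp only [Finset.sum_empty, Finset.prod_empty]
    exact intQ_const N 1 isIntegral_one
  | insert a s ha ih =>
    simp only [Finset.sum_insert ha, Finset.prod_insert ha]
    exact intQ_mul hN (hF a (by simp)) (ih fun i hi => hF i (by simp [hi]))

/-- Changing the denominator of the exponents. -/
theorem intQ_refine {N m : ℕ} (k : ℕ) (hk : 0 < k) {u : ℂ} {F : ℍ → ℂ} (hF : IntQ N m u F) :
    IntQ (N * k) (m * k) u F := by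
  obtain ⟨c, hc0, hci, hc⟩ := hF
  refine ⟨fun n => if k ∣ n then c (n / k) else 0, by simp [hc0], ?_, ?_⟩
  · intro n
    by_cases h : k ∣ n
    · simpa [h] using hci _
    · simpa [h] using isIntegral_zero
  · intro τ
    have hinj : Function.Injective (fun n : ℕ => n * k) := fun a b h =>
      Nat.eq_of_mul_eq_mul_right hk h
    have hwk : wp (N * k) τ ^ k = wp N τ := by
      unfold wp
      rw [← Complex.exp_nat_mul]
      congr 1
      have hk' : (k : ℂ) ≠ 0 := by exact_mod_cast hk.ne'
      push_cast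
      rcases Nat.eq_zero_or_pos N with hN | hN
      · simp [hN]
      · have hN' : (N : ℂ) ≠ 0 := by exact_mod_cast hN.ne'
        field_simp
    rw [← hinj.hasSum_iff]
    · convert hc τ using 1
      funext n
      simp only [Function.comp_apply]
      rw [if_pos (Dvd.intro_left n rfl), Nat.mul_div_cancel _ hk]
      congr 1
      rw [← hwk, ← zpow_natCast, ← zpow_mul]
      congr 1
      push_cast
      ring
    · intro n hn
      have : ¬ k ∣ n := by
        rintro ⟨t, rfl⟩
        exact hn ⟨t, by simp only; ring⟩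
      simp [this]

/-- The leading coefficient is a limit. -/
theorem intQ_tendsto {N m : ℕ} (hN : 0 < N) {u : ℂ} {F : ℍ → ℂ} (hF : IntQ N m u F) :
    Tendsto (fun τ : ℍ => wp N τ ^ m * F τ) atImInfty (nhds u) := by
  obtain ⟨c, hc0, hci, hc⟩ := hF
  have hs : ∀ τ : ℍ, HasSum (fun n : ℕ => c n * wp N τ ^ n) (wp N τ ^ m * F τ) := by
    intro τ
    refine zp1_congr ((hc τ).mul_left (wp N τ ^ m)) fun n => ?_
    have hw := wp_ne_zero N τ
    rw [zpow_sub₀ hw, zpow_natCast, zpow_natCast]
    field_simp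
  have hN' : (0 : ℝ) < N := by exact_mod_cast hN
  have hpi := Real.pi_pos
  have hw0 : Tendsto (fun τ : ℍ => wp N τ) atImInfty (nhds 0) := by
    rw [tendsto_zero_iff_norm_tendsto_zero]
    simp only [zp1_norm_wp]
    apply Real.tendsto_exp_atBot.comp
    apply tendsto_neg_atTop_atBot.comp
    have h1 : Tendsto (fun τ : ℍ => τ.im) atImInfty atTop := tendsto_comap
    have h2 : (fun τ : ℍ => 2 * Real.pi * τ.im / N) = fun τ : ℍ => (2 * Real.pi / N) * τ.im := by
      funext τ; ring
    rw [h2]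
    exact h1.const_mul_atTop (by positivity)
  have hle : ∀ᶠ τ : ℍ in atImInfty, ‖wp N τ‖ ≤ ‖wp N UpperHalfPlane.I‖ := by
    have h1 : Tendsto (fun τ : ℍ => τ.im) atImInfty atTop := tendsto_comap
    filter_upwards [h1.eventually_ge_atTop 1] with τ hτ
    rw [zp1_norm_wp, zp1_norm_wp]
    apply Real.exp_le_exp.2
    rw [UpperHalfPlane.I_im]
    apply neg_le_neg
    apply div_le_div_of_nonneg_right _ hN'.le
    nlinarith
  have hlim := tendsto_tsum_of_dominated_convergence (𝓕 := atImInfty)
    (f := fun (τ : ℍ) (n : ℕ) => c n * wp N τ ^ n)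
    (g := fun n : ℕ => if n = 0 then u else 0)
    (bound := fun n : ℕ => ‖c n * wp N UpperHalfPlane.I ^ n‖)
    (hs UpperHalfPlane.I).summable.norm
    (by
      intro n
      by_cases hn : n = 0
      · subst hn
        simp [hc0]
      · simp only [hn, if_false]
        have := (hw0.pow n).const_mul (c n)
        simpa [hn] using this)
    (by
      filter_upwards [hle] with τ hτ n
      rw [norm_mul, norm_mul, norm_pow, norm_pow]
      exact mul_le_mul_of_nonneg_left (pow_le_pow_left₀ (norm_nonneg _) hτ n) (norm_nonneg _))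
  rw [tsum_ite_eq] at hlim
  refine hlim.congr fun τ => ?_
  exact (hs τ).tsum_eq

end ZP38
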