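import Mathlib
import Pool.Agent.LibZP38.T1

/-! TASK ZP2a: the integral expansion of `j`. -/

namespace ZP38

open UpperHalfPlane

/-! ### Pointwise power series -/

theorem zp2_mul {P Q : PowerSeries ℂ} {w u v : ℂ}
    (hP : HasSum (fun n => P.coeff n * w ^ n) u) (hQ : HasSum (fun n => Q.coeff n * w ^ n) v) :
    HasSum (fun n => (P * Q).coeff n * w ^ n) (u * v) := by
  have h1 := hP.summable.norm
  have h2 := hQ.summable.norm
  have h3 := (summable_norm_sum_mul_antidiagonal_of_summable_norm h1 h2).of_norm.hasSum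
  rw [← tsum_mul_tsum_eq_tsum_sum_antidiagonal_of_summable_norm h1 h2, hP.tsum_eq,
    hQ.tsum_eq] at h3
  refine h3.congr_fun ?_
  intro n
  rw [PowerSeries.coeff_mul, Finset.sum_mul]
  refine Finset.sum_congr rfl ?_
  intro kl hkl
  rw [← Finset.HasAntidiagonal.mem_antidiagonal.mp hkl, pow_add]
  ring

theorem zp2_unique {a : ℕ → ℂ} (h : ∀ w : ℂ, ‖w‖ < 1 → HasSum (fun n => a n * w ^ n) 0) :
    ∀ n, a n = 0 := by
  have H : HasFPowerSeriesOnBall (0 : ℂ → ℂ) (.ofScalars ℂ a) 0 1 := by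
    constructor
    · refine le_of_forall_lt_imp_le_of_dense fun r hr ↦ ?_
      lift r to NNReal using hr.ne_top
      apply FormalMultilinearSeries.le_radius_of_summable
      simpa [smul_eq_mul, norm_mul, mul_comm, mul_left_comm, mul_assoc] using
        (h (r : ℂ) (by simpa using hr)).summable.norm
    · simp
    · intro y hy
      rw [← ENNReal.coe_one, Metric.eball_coe, NNReal.coe_one, mem_ball_zero_iff] at hy
      simpa [mul_comm] using h y hy
  intro n
  have h1 := H.hasFPowerSeriesAt.eq_zero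
  have h2 : (FormalMultilinearSeries.ofScalars ℂ a).coeff n = a n :=
    FormalMultilinearSeries.coeff_ofScalars ..
  rw [← h2, h1]
  simp [FormalMultilinearSeries.coeff]

/-! ### Eisenstein series -/

theorem zp2_qParam (τ : ℍ) : Function.Periodic.qParam 1 τ = wp 1 τ := by
  simp [Function.Periodic.qParam, wp]

/-- `E₄ = 1 + 240 ∑ σ₃ n q ^ n`. -/
theorem hasQ_E4 : ∃ a : ℕ → ℤ, a 0 = 1 ∧ (∀ n, 0 < n → a n = 240 * ArithmeticFunction.sigma 3 n) ∧
    HasQ 1 0 (fun n => (a n : ℂ)) ModularForm.E₄ := by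
  refine ⟨fun n => if n = 0 then 1 else 240 * ArithmeticFunction.sigma 3 n, by simp, ?_, ?_⟩
  · intro n hn
    simp [hn.ne']
  · intro τ
    have h := ModularForm.hasSum_qExpansion (h := 1) ModularForm.E₄ one_pos
      one_mem_strictPeriods_SL τ
    refine h.congr_fun ?_
    intro n
    rw [EisensteinSeries.E_qExpansion_coeff _ ⟨2, rfl⟩, zp2_qParam]
    norm_num [show bernoulli 4 = -1 / 30 by decide +kernel]

/-- `E₆ = 1 - 504 ∑ σ₅ n q ^ n`. -/
theorem hasQ_E6 : ∃ a : ℕ → ℤ, a 0 = 1 ∧ (∀ n, 0 < n → a n = - 504 * ArithmeticFunction.sigma 5 n) ∧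
    HasQ 1 0 (fun n => (a n : ℂ)) ModularForm.E₆ := by
  refine ⟨fun n => if n = 0 then 1 else - 504 * ArithmeticFunction.sigma 5 n, by simp, ?_, ?_⟩
  · intro n hn
    simp [hn.ne']
  · intro τ
    have h := ModularForm.hasSum_qExpansion (h := 1) ModularForm.E₆ one_pos
      one_mem_strictPeriods_SL τ
    refine h.congr_fun ?_
    intro n
    rw [EisensteinSeries.E_qExpansion_coeff _ ⟨3, rfl⟩, zp2_qParam]
    norm_num [show bernoulli 6 = 1 / 42 by decide +kernel]

/-! ### The discriminant -/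

/-- `∑ σ_k n q ^ n` -/
noncomputable def zp2_s (k : ℕ) : PowerSeries ℤ :=
  PowerSeries.mk fun n => (ArithmeticFunction.sigma k n : ℤ)

theorem zp2_s_zero (k : ℕ) : (zp2_s k).coeff 0 = 0 := by
  simp [zp2_s]

theorem zp2_s_one (k : ℕ) : (zp2_s k).coeff 1 = 1 := by
  simp [zp2_s]

theorem zp2_congr (n : ℕ) : (12 : ℤ) ∣
    5 * (ArithmeticFunction.sigma 3 n : ℤ) + 7 * (ArithmeticFunction.sigma 5 n : ℤ) := by
  rw [ArithmeticFunction.sigma_apply, ArithmeticFunction.sigma_apply]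
  push_cast
  rw [Finset.mul_sum, Finset.mul_sum, ← Finset.sum_add_distrib]
  refine Finset.dvd_sum ?_
  intro d _
  have h : ∀ x : ZMod 12, 5 * x ^ 3 + 7 * x ^ 5 = 0 := by decide
  have h2 := h (d : ZMod 12)
  exact (ZMod.intCast_zmod_eq_zero_iff_dvd _ 12).mp (by push_cast; exact h2)

/-- `(5 σ₃ + 7 σ₅) / 12` -/
noncomputable def zp2_g : PowerSeries ℤ :=
  PowerSeries.mk fun n =>
    (5 * (ArithmeticFunction.sigma 3 n : ℤ) + 7 * (ArithmeticFunction.sigma 5 n : ℤ)) / 12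

theorem zp2_g_eq : 12 * zp2_g = 5 * zp2_s 3 + 7 * zp2_s 5 := by
  ext n
  have h1 : (12 : PowerSeries ℤ) = PowerSeries.C 12 := by simp
  have h2 : (5 : PowerSeries ℤ) = PowerSeries.C 5 := by simp
  have h3 : (7 : PowerSeries ℤ) = PowerSeries.C 7 := by simp
  rw [h1, h2, h3, map_add, PowerSeries.coeff_C_mul, PowerSeries.coeff_C_mul,
    PowerSeries.coeff_C_mul, zp2_g, zp2_s, zp2_s, PowerSeries.coeff_mk, PowerSeries.coeff_mk,
    PowerSeries.coeff_mk]
  exact Int.mul_ediv_cancel' (zp2_congr n)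

/-- The power series of the discriminant. -/
noncomputable def zp2_D : PowerSeries ℤ :=
  zp2_g + 100 * zp2_s 3 ^ 2 + 8000 * zp2_s 3 ^ 3 - 147 * zp2_s 5 ^ 2

theorem zp2_D_eq : 1728 * zp2_D = (1 + 240 * zp2_s 3) ^ 3 - (1 - 504 * zp2_s 5) ^ 2 := by
  rw [zp2_D]
  linear_combination 144 * zp2_g_eq

theorem zp2_D_zero : zp2_D.coeff 0 = 0 := by
  have h1 := zp2_s_zero 3
  have h2 := zp2_s_zero 5
  have h3 : zp2_g.coeff 0 = 0 := by simp [zp2_g]
  rw [PowerSeries.coeff_zero_eq_constantCoeff] at *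
  simp [zp2_D, h1, h2, h3]

theorem zp2_D_one : zp2_D.coeff 1 = 1 := by
  have h1 := zp2_s_zero 3
  have h2 := zp2_s_zero 5
  have h3 : zp2_g.coeff 1 = 1 := by simp [zp2_g]
  have h4 : (zp2_s 3 ^ 2).coeff 1 = 0 := by
    rw [pow_two, PowerSeries.coeff_mul]
    simp [Finset.Nat.antidiagonal_succ, h1]
  have h5 : (zp2_s 5 ^ 2).coeff 1 = 0 := by
    rw [pow_two, PowerSeries.coeff_mul]
    simp [Finset.Nat.antidiagonal_succ, h2]
  have h6 : (zp2_s 3 ^ 3).coeff 1 = 0 := by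
    rw [pow_succ, PowerSeries.coeff_mul]
    have h1' := h1
    rw [PowerSeries.coeff_zero_eq_constantCoeff] at h1'
    simp [Finset.Nat.antidiagonal_succ, h1', h4]
  have e1 : (100 : PowerSeries ℤ) = PowerSeries.C 100 := by simp
  have e2 : (8000 : PowerSeries ℤ) = PowerSeries.C 8000 := by simp
  have e3 : (147 : PowerSeries ℤ) = PowerSeries.C 147 := by simp
  rw [zp2_D, map_sub, map_add, map_add, e1, e2, e3, PowerSeries.coeff_C_mul,
    PowerSeries.coeff_C_mul, PowerSeries.coeff_C_mul, h3, h4, h5, h6]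
  norm_num

/-- complexification -/
noncomputable def zp2_c (P : PowerSeries ℤ) : PowerSeries ℂ := P.map (Int.castRingHom ℂ)

theorem zp2_E4 (τ : ℍ) : HasSum (fun n => (zp2_c (1 + 240 * zp2_s 3)).coeff n * wp 1 τ ^ n)
    (ModularForm.E₄ τ) := by
  obtain ⟨a, h0, h1, h2⟩ := hasQ_E4
  refine (h2 τ).congr_fun ?_
  intro n
  have e1 : (240 : PowerSeries ℤ) = PowerSeries.C 240 := by simp
  have h3 : (1 + 240 * zp2_s 3 : PowerSeries ℤ).coeff n = a n := by
    rw [map_add, e1, PowerSeries.coeff_C_mul, PowerSeries.coeff_one]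
    rcases Nat.eq_zero_or_pos n with rfl | hn
    · simp [h0, zp2_s]
    · simp [h1 n hn, hn.ne', zp2_s]
  rw [zp2_c, PowerSeries.coeff_map, h3]
  simp

theorem zp2_E6 (τ : ℍ) : HasSum (fun n => (zp2_c (1 - 504 * zp2_s 5)).coeff n * wp 1 τ ^ n)
    (ModularForm.E₆ τ) := by
  obtain ⟨a, h0, h1, h2⟩ := hasQ_E6
  refine (h2 τ).congr_fun ?_
  intro n
  have e1 : (504 : PowerSeries ℤ) = PowerSeries.C 504 := by simp
  have h3 : (1 - 504 * zp2_s 5 : PowerSeries ℤ).coeff n = a n := by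
    rw [map_sub, e1, PowerSeries.coeff_C_mul, PowerSeries.coeff_one]
    rcases Nat.eq_zero_or_pos n with rfl | hn
    · simp [h0, zp2_s]
    · simp [h1 n hn, hn.ne', zp2_s]
  rw [zp2_c, PowerSeries.coeff_map, h3]
  simp

theorem zp2_Delta (τ : ℍ) : HasSum (fun n => (zp2_c zp2_D).coeff n * wp 1 τ ^ n)
    (ModularForm.discriminant τ) := by
  have h4 := zp2_E4 τ
  have h6 := zp2_E6 τ
  have h1 := (zp2_mul (zp2_mul h4 h4) h4).sub (zp2_mul h6 h6)
  have h2 := h1.div_const 1728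
  rw [ModularForm.discriminant_eq_E₄_cube_sub_E₆_sq]
  have h3 : (ModularForm.E₄ τ * ModularForm.E₄ τ * ModularForm.E₄ τ -
      ModularForm.E₆ τ * ModularForm.E₆ τ) / 1728 =
      (ModularForm.E₄ τ ^ 3 - ModularForm.E₆ τ ^ 2) / 1728 := by ring
  rw [h3] at h2
  refine h2.congr_fun ?_
  intro n
  have h5 := congrArg (fun P => (zp2_c P).coeff n) zp2_D_eq
  have e1 : (1728 : PowerSeries ℤ) = PowerSeries.C 1728 := by simp
  have h7 : (zp2_c (1728 * zp2_D)).coeff n = 1728 * (zp2_c zp2_D).coeff n := by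
    rw [zp2_c, zp2_c, PowerSeries.coeff_map, PowerSeries.coeff_map, e1, PowerSeries.coeff_C_mul]
    simp
  simp only [h7] at h5
  have h8 : zp2_c ((1 + 240 * zp2_s 3) ^ 3 - (1 - 504 * zp2_s 5) ^ 2) =
      zp2_c (1 + 240 * zp2_s 3) * zp2_c (1 + 240 * zp2_s 3) * zp2_c (1 + 240 * zp2_s 3) -
      zp2_c (1 - 504 * zp2_s 5) * zp2_c (1 - 504 * zp2_s 5) := by
    rw [zp2_c, map_sub, map_pow, map_pow]
    rw [zp2_c, zp2_c]
    ring
  rw [h8, map_sub] at h5
  rw [← sub_mul, eq_div_iff (by norm_num), ← h5]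
  ring

/-- The shifted power series. -/
noncomputable def zp2_B : PowerSeries ℤ := PowerSeries.mk fun n => zp2_D.coeff (n + 1)

theorem zp2_wp_ne (τ : ℍ) : wp 1 τ ≠ 0 := Complex.exp_ne_zero _

theorem zp2_B_sum (τ : ℍ) : HasSum (fun n => (zp2_c zp2_B).coeff n * wp 1 τ ^ n)
    (ModularForm.discriminant τ / wp 1 τ) := by
  have h := zp2_Delta τ
  rw [← hasSum_nat_add_iff' 1] at h
  have h2 := h.div_const (wp 1 τ)
  have h3 : ModularForm.discriminant τ - ∑ i ∈ Finset.range 1, (zp2_c zp2_D).coeff i * wp 1 τ ^ i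
      = ModularForm.discriminant τ := by
    rw [Finset.sum_range_one, zp2_c, PowerSeries.coeff_map, zp2_D_zero]
    simp
  rw [h3] at h2
  refine h2.congr_fun ?_
  intro n
  rw [zp2_c, zp2_c, PowerSeries.coeff_map, PowerSeries.coeff_map, zp2_B, PowerSeries.coeff_mk,
    pow_succ]
  field_simp [zp2_wp_ne τ]

/-- `Δ = q (1 + ...)` with integral coefficients; use
`ModularForm.discriminant_eq_E₄_cube_sub_E₆_sq` and the congruence `5 σ₃ n + 7 σ₅ n ≡ 0` mod `12`
(and `ModularForm.discriminant_qExpansion_coeff_one` for the first coefficient). -/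
theorem hasQ_Delta : ∃ b : ℕ → ℤ, b 0 = 1 ∧
    ∀ τ : ℍ, HasSum (fun n : ℕ => (b n : ℂ) * wp 1 τ ^ (n + 1)) (ModularForm.discriminant τ) := by
  refine ⟨fun n => zp2_D.coeff (n + 1), zp2_D_one, ?_⟩
  intro τ
  have h := (zp2_B_sum τ).mul_right (wp 1 τ)
  rw [div_mul_cancel₀ _ (zp2_wp_ne τ)] at h
  refine h.congr_fun ?_
  intro n
  rw [zp2_c, PowerSeries.coeff_map, zp2_B, PowerSeries.coeff_mk, pow_succ, mul_assoc]
  rfl

/-- the product -/
noncomputable def zp2_G (q : ℂ) : ℂ := ∏' n, (1 - q ^ (n + 1)) ^ 24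

theorem zp2_G_zero : zp2_G 0 = 1 := by
  simp [zp2_G]

theorem zp2_G_wp (τ : ℍ) : zp2_G (wp 1 τ) = ModularForm.discriminant τ / wp 1 τ := by
  rw [eq_div_iff (zp2_wp_ne τ), ModularForm.discriminant_eq_q_prod, zp2_qParam, zp2_G, mul_comm]
  simp [ModularForm.eta_q, zp2_qParam]

theorem zp2_exists_wp (w : ℂ) (hw : ‖w‖ < 1) (h0 : w ≠ 0) : ∃ τ : ℍ, wp 1 τ = w := by
  have him := Function.Periodic.im_invQParam_pos_of_norm_lt_one one_pos hw h0
  refine ⟨⟨_, him⟩, ?_⟩
  rw [← zp2_qParam]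
  exact Function.Periodic.qParam_right_inv one_ne_zero h0

theorem zp2_G_ne (w : ℂ) (hw : ‖w‖ < 1) : zp2_G w ≠ 0 := by
  by_cases h0 : w = 0
  · rw [h0, zp2_G_zero]; exact one_ne_zero
  · obtain ⟨τ, rfl⟩ := zp2_exists_wp w hw h0
    rw [zp2_G_wp]
    exact div_ne_zero (ModularForm.discriminant_ne_zero τ) (zp2_wp_ne τ)

theorem zp2_G_sum (w : ℂ) (hw : ‖w‖ < 1) :
    HasSum (fun n => (zp2_c zp2_B).coeff n * w ^ n) (zp2_G w) := by
  by_cases h0 : w = 0
  · subst h0
    have h1 : (zp2_c zp2_B).coeff 0 = 1 := by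
      rw [zp2_c, PowerSeries.coeff_map, zp2_B, PowerSeries.coeff_mk, zp2_D_one]
      simp
    have h2 := hasSum_single (f := fun n => (zp2_c zp2_B).coeff n * (0 : ℂ) ^ n) 0 (by
      intro n hn
      simp [hn])
    simpa [h1, zp2_G_zero] using h2
  · obtain ⟨τ, rfl⟩ := zp2_exists_wp w hw h0
    rw [zp2_G_wp]
    exact zp2_B_sum τ

/-- the inverse of the power series -/
noncomputable def zp2_C : PowerSeries ℤ := PowerSeries.invOfUnit zp2_B 1

theorem zp2_B_mul_C : zp2_B * zp2_C = 1 := by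
  refine PowerSeries.mul_invOfUnit _ _ ?_
  rw [← PowerSeries.coeff_zero_eq_constantCoeff_apply, zp2_B, PowerSeries.coeff_mk, zp2_D_one]
  rfl

theorem zp2_C_sum (w : ℂ) (hw : ‖w‖ < 1) :
    HasSum (fun n => (zp2_c zp2_C).coeff n * w ^ n) (zp2_G w)⁻¹ := by
  have hd : DifferentiableOn ℂ (fun q => (zp2_G q)⁻¹) (Metric.ball (0 : ℂ) 1) := by
    refine (ModularForm.differentiableOn_tprod_one_sub_pow_pow 24).inv ?_
    intro q hq
    exact zp2_G_ne q (by simpa using hq)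
  let P : PowerSeries ℂ := PowerSeries.mk fun n =>
    (n.factorial : ℂ)⁻¹ * iteratedDeriv n (fun q => (zp2_G q)⁻¹) 0
  have hP : ∀ w : ℂ, ‖w‖ < 1 → HasSum (fun n => P.coeff n * w ^ n) (zp2_G w)⁻¹ := by
    intro w hw
    have h1 := Complex.hasSum_taylorSeries_on_ball hd (z := w) (by simpa using hw)
    refine h1.congr_fun ?_
    intro n
    simp only [P, PowerSeries.coeff_mk, smul_eq_mul, sub_zero]
    ring
  have h1 : zp2_c zp2_B * P = 1 := by
    have h2 := zp2_unique (a := fun n => (zp2_c zp2_B * P - 1).coeff n) (by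
      intro w hw
      have h3 := zp2_mul (zp2_G_sum w hw) (hP w hw)
      rw [mul_inv_cancel₀ (zp2_G_ne w hw)] at h3
      have h4 : HasSum (fun n => (1 : PowerSeries ℂ).coeff n * w ^ n) 1 := by
        have h5 := hasSum_single (f := fun n => (1 : PowerSeries ℂ).coeff n * w ^ n) 0 (by
          intro n hn
          simp [PowerSeries.coeff_one, hn])
        simpa using h5
      have h6 := h3.sub h4
      rw [sub_self] at h6
      refine h6.congr_fun ?_
      intro n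
      rw [map_sub, sub_mul])
    have h3 : zp2_c zp2_B * P - 1 = 0 := by
      ext n
      exact h2 n
    exact sub_eq_zero.mp h3
  have h2 : zp2_c zp2_B * zp2_c zp2_C = 1 := by
    rw [zp2_c, zp2_c, ← map_mul, zp2_B_mul_C, map_one]
  have h3 : P = zp2_c zp2_C := by
    calc P = (zp2_c zp2_B * zp2_c zp2_C) * P := by rw [h2, one_mul]
      _ = (zp2_c zp2_B * P) * zp2_c zp2_C := by ring
      _ = _ := by rw [h1, one_mul]
  rw [← h3]
  exact hP w hw

/-- The inverse of `Δ` (an integral power series with constant term `1`, without zeros in the unit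
disc, has an integral inverse which converges in the unit disc). -/
theorem hasQ_Delta_inv : ∃ c : ℕ → ℤ, c 0 = 1 ∧
    HasQ 1 1 (fun n => (c n : ℂ)) (fun τ => (ModularForm.discriminant τ)⁻¹) := by
  refine ⟨fun n => zp2_C.coeff n, ?_, ?_⟩
  · have h := congrArg PowerSeries.constantCoeff zp2_B_mul_C
    rw [map_mul, map_one, ← PowerSeries.coeff_zero_eq_constantCoeff_apply,
      ← PowerSeries.coeff_zero_eq_constantCoeff_apply] at h
    have h1 : zp2_B.coeff 0 = 1 := by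
      rw [zp2_B, PowerSeries.coeff_mk, zp2_D_one]
    rw [h1, one_mul] at h
    exact h
  · intro τ
    have h := zp2_C_sum (wp 1 τ) (norm_wp_lt_one one_pos τ)
    have h2 := h.mul_right (wp 1 τ)⁻¹
    rw [zp2_G_wp, inv_div, div_mul_eq_mul_div, mul_inv_cancel₀ (zp2_wp_ne τ), one_div] at h2
    refine h2.congr_fun ?_
    intro n
    rw [zp2_c, PowerSeries.coeff_map, mul_assoc]
    rw [zpow_sub₀ (zp2_wp_ne τ)]
    simp [div_eq_mul_inv]

theorem intQ_jfun : IntQ 1 1 1 jfun := by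
  obtain ⟨a, ha0, _, ha⟩ := hasQ_E4
  obtain ⟨c, hc0, hc⟩ := hasQ_Delta_inv
  have h1 : IntQ 1 0 1 ModularForm.E₄ :=
    ⟨fun n => (a n : ℂ), by simp [ha0], fun n => isIntegral_algebraMap (R := ℤ) (x := a n), ha⟩
  have h2 : IntQ 1 1 1 (fun τ => (ModularForm.discriminant τ)⁻¹) :=
    ⟨fun n => (c n : ℂ), by simp [hc0], fun n => isIntegral_algebraMap (R := ℤ) (x := c n), hc⟩
  have h3 := intQ_mul one_pos (intQ_pow one_pos h1 3) h2
  change IntQ 1 1 1 (fun τ => ModularForm.E₄ τ ^ 3 / ModularForm.discriminant τ)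
  simpa [div_eq_mul_inv] using h3

end ZP38
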