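import Mathlib
import Pool.Agent.LibZP38.T2a

/-! TASK ZP2: invariance and holomorphy of `j`, and the expansions of `j ((a τ + b) / e)`. -/

namespace ZP38

open UpperHalfPlane

theorem zp2_mem_SL (γ : Matrix.SpecialLinearGroup (Fin 2) ℤ) :
    Matrix.SpecialLinearGroup.mapGL ℝ γ ∈ (Matrix.SpecialLinearGroup.mapGL ℝ :
      Matrix.SpecialLinearGroup (Fin 2) ℤ →* GL (Fin 2) ℝ).range := ⟨γ, rfl⟩

theorem zp2_alg (x y D : ℂ) (hD : D ≠ 0) (hy : y ≠ 0) :
    (D ^ (4 : ℤ) * x) ^ 3 / (D ^ (12 : ℤ) * y) = x ^ 3 / y := by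
  rw [zpow_ofNat, zpow_ofNat]
  field_simp

theorem inv_jfun : Inv jfun := by
  intro γ τ
  have h4 := SlashInvariantForm.slash_action_eqn'' ModularForm.E₄ (zp2_mem_SL γ) τ
  have h12 := SlashInvariantForm.slash_action_eqn'' CuspForm.discriminant (zp2_mem_SL γ) τ
  have hd : denom (Matrix.SpecialLinearGroup.mapGL ℝ γ) τ ≠ 0 := denom_ne_zero _ _
  change ModularForm.E₄ (γ • τ) = _ at h4
  change ModularForm.discriminant (γ • τ) = _ * ModularForm.discriminant τ at h12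
  unfold jfun
  rw [h4, h12]
  exact zp2_alg _ _ _ hd (ModularForm.discriminant_ne_zero τ)

theorem hol_jfun : Hol jfun := by
  have h4 : MDifferentiable (modelWithCornersSelf ℂ ℂ) (modelWithCornersSelf ℂ ℂ)
      (fun τ => ModularForm.E₄ τ) := ModularForm.E₄.holo'
  have h12 : MDifferentiable (modelWithCornersSelf ℂ ℂ) (modelWithCornersSelf ℂ ℂ)
      (fun τ => ModularForm.discriminant τ) := CuspForm.discriminant.holo'
  unfold Hol
  rw [UpperHalfPlane.mdifferentiable_iff] at *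
  have : jfun ∘ ofComplex = fun z => ((fun τ => ModularForm.E₄ τ) ∘ ofComplex) z ^ 3 /
      ((fun τ => ModularForm.discriminant τ) ∘ ofComplex) z := rfl
  rw [this]
  exact (h4.pow 3).div h12 (fun z _ => ModularForm.discriminant_ne_zero _)

/-- `j ((a τ + b) / e)` with `a e = N`. -/
theorem intQ_jm (N : ℕ) (hN : 0 < N) (p : ℕ × ℕ) (hp : p ∈ idx N) :
    ∃ u : ℂ, (∃ k : ℕ, 0 < k ∧ u ^ k = 1) ∧ IntQ N (p.1 ^ 2) u (jm (hm N p)) := by
  obtain ⟨a, b⟩ := p
  simp only [idx, Finset.mem_filter, Finset.mem_product, Nat.mem_divisors, Finset.mem_range] at hp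
  obtain ⟨⟨⟨⟨e, he⟩, _⟩, _⟩, hbe⟩ := hp
  have ha : 0 < a := Nat.pos_of_ne_zero (fun h => by rw [h, zero_mul] at he; omega)
  have he0 : 0 < e := Nat.pos_of_ne_zero (fun h => by rw [h, mul_zero] at he; omega)
  have hdiv : N / a = e := by rw [he]; exact Nat.mul_div_cancel_left e ha
  obtain ⟨c, hc0, hc, hq⟩ := intQ_jfun
  -- the root of unity
  set ζ : ℂ := Complex.exp (2 * Real.pi * Complex.I * (b : ℂ) / e) with hζ
  have hζ0 : ζ ≠ 0 := Complex.exp_ne_zero _
  have heC : (e : ℂ) ≠ 0 := by exact_mod_cast he0.ne'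
  have haC : (a : ℂ) ≠ 0 := by exact_mod_cast ha.ne'
  have hζe : ζ ^ e = 1 := by
    rw [hζ, ← Complex.exp_nat_mul]
    have : (e : ℂ) * (2 * Real.pi * Complex.I * (b : ℂ) / e) = b * (2 * Real.pi * Complex.I) := by
      field_simp
    rw [this]
    exact Complex.exp_nat_mul_two_pi_mul_I b
  have hinv : (ζ⁻¹) ^ e = 1 := by rw [inv_pow, hζe, inv_one]
  have hζint : IsIntegral ℤ ζ := by
    refine IsIntegral.of_pow he0 ?_
    rw [hζe]
    exact isIntegral_one
  have hζint' : IsIntegral ℤ ζ⁻¹ := by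
    refine IsIntegral.of_pow he0 ?_
    rw [hinv]
    exact isIntegral_one
  have ha2 : 0 < a ^ 2 := by positivity
  refine ⟨ζ⁻¹, ⟨e, he0, hinv⟩,
    fun k => if a ^ 2 ∣ k then c (k / a ^ 2) * ζ ^ (k / a ^ 2) * ζ⁻¹ else 0, ?_, ?_, ?_⟩
  · simp [hc0]
  · intro n
    dsimp only
    split_ifs
    · exact ((hc _).mul (hζint.pow _)).mul hζint'
    · exact isIntegral_zero
  · intro τ
    -- the point
    have him : 0 < ((((a : ℤ) : ℂ) * (τ : ℂ) + ((b : ℤ) : ℂ)) / (e : ℂ)).im := by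
      rw [Complex.div_natCast_im]
      have hτ := τ.im_pos
      have : ((((a : ℤ) : ℂ) * (τ : ℂ) + ((b : ℤ) : ℂ))).im = a * τ.im := by
        simp
      rw [this]
      positivity
    have hval : jm (hm N (a, b)) τ =
        jfun ⟨(((a : ℤ) : ℂ) * (τ : ℂ) + ((b : ℤ) : ℂ)) / (e : ℂ), him⟩ := by
      unfold jm hm
      rw [← ofComplex_apply_of_im_pos him]
      simp [hdiv]
    rw [hval]
    have h1 := hq ⟨(((a : ℤ) : ℂ) * (τ : ℂ) + ((b : ℤ) : ℂ)) / (e : ℂ), him⟩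
    have hw : wp 1 ⟨(((a : ℤ) : ℂ) * (τ : ℂ) + ((b : ℤ) : ℂ)) / (e : ℂ), him⟩ =
        ζ * wp N τ ^ (a ^ 2) := by
      unfold wp
      rw [hζ, ← Complex.exp_nat_mul, ← Complex.exp_add]
      congr 1
      rw [he]
      push_cast
      field_simp
      ring
    have hwN : wp N τ ≠ 0 := Complex.exp_ne_zero _
    rw [hw] at h1
    have hinj : Function.Injective (fun n : ℕ => a ^ 2 * n) := by
      intro x y hxy
      exact Nat.eq_of_mul_eq_mul_left ha2 hxy
    rw [← hinj.hasSum_iff]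
    · convert h1 using 2 with n
      simp only [Function.comp_apply, dvd_mul_right, if_true]
      rw [Nat.mul_div_cancel_left _ ha2, mul_zpow, ← zpow_natCast (wp N τ), ← zpow_mul,
        zpow_sub₀ hζ0, zpow_natCast, zpow_natCast, pow_one]
      have : ((a ^ 2 * n : ℕ) : ℤ) - ((a ^ 2 : ℕ) : ℤ) = ((a ^ 2 : ℕ) : ℤ) * ((n : ℤ) - ((1 : ℕ) : ℤ)) := by
        push_cast
        ring
      rw [this, div_eq_mul_inv]
      ring
    · intro k hk
      have : ¬ a ^ 2 ∣ k := by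
        rintro ⟨n, rfl⟩
        exact hk ⟨n, rfl⟩
      simp [this]

theorem hol_jm (A : Matrix (Fin 2) (Fin 2) ℤ) (hA : 0 < A.det) : Hol (jm A) := by
  have hdet : (A.map (Int.cast : ℤ → ℝ)).det = (A.det : ℝ) := by
    have := (RingHom.map_det (Int.castRingHom ℝ) A)
    simpa [RingHom.mapMatrix_apply] using this.symm
  have hne : (A.map (Int.cast : ℤ → ℝ)).det ≠ 0 := by
    rw [hdet]
    exact_mod_cast hA.ne'
  let g : GL (Fin 2) ℝ := Matrix.GeneralLinearGroup.mkOfDetNeZero (A.map (Int.cast : ℤ → ℝ)) hne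
  have hg : 0 < g.det.val := by
    change 0 < (A.map (Int.cast : ℤ → ℝ)).det
    rw [hdet]
    exact_mod_cast hA
  have key : jm A = fun τ => jfun (g • τ) := by
    funext τ
    unfold jm
    congr 1
    have h1 : ((g • τ : ℍ) : ℂ) = (A 0 0 * (τ : ℂ) + A 0 1) / (A 1 0 * (τ : ℂ) + A 1 1) := by
      rw [coe_smul_of_det_pos hg]
      simp [num, denom, g, Matrix.GeneralLinearGroup.mkOfDetNeZero]
    rw [← h1, ofComplex_apply]
  rw [key]
  exact hol_jfun.comp (mdifferentiable_smul hg)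

end ZP38
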