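import Mathlib
import Pool.Agent.LibZP38.T2

/-! TASK ZP3: an invariant holomorphic function with integral Puiseux expansion is a polynomial in
`j` with algebraic integers as coefficients. -/

namespace ZP38

open UpperHalfPlane Filter

open scoped ModularForm MatrixGroups in
/-- Pole order `0`: the function is constant
(`ModularFormClass.levelOne_weight_zero_const`). -/
theorem inv_const {N : ℕ} (hN : 0 < N) {u : ℂ} {F : ℍ → ℂ} (hF : IntQ N 0 u F) (hi : Inv F)
    (hh : Hol F) : F = fun _ => u := by
  have ht := intQ_tendsto hN hF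
  simp only [pow_zero, one_mul] at ht
  have hsl : ∀ γ : SL(2, ℤ), F ∣[(0 : ℤ)] γ = F := by
    intro γ
    funext τ
    rw [ModularForm.SL_slash_apply, hi γ τ]
    simp
  let f : ModularForm 𝒮ℒ 0 :=
    { toFun := F
      slash_action_eq' := by
        rintro A ⟨γ, rfl⟩
        exact hsl γ
      holo' := hh
      bdd_at_cusps' := fun hc => (OnePoint.isBoundedAt_iff_forall_SL2Z hc).mpr (fun γ _ => by
        rw [hsl γ]
        exact ht.isBigO_one ℝ) }
  obtain ⟨c, hc⟩ := ModularFormClass.levelOne_weight_zero_const f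
  have hFc : F = Function.const _ c := hc
  have h1 : Tendsto F atImInfty (nhds c) := by
    rw [hFc]
    exact tendsto_const_nhds
  have hcu : c = u := tendsto_nhds_unique h1 ht
  rw [hFc, hcu]
  rfl

/-- The pole order is divisible by `N`. -/
theorem inv_dvd {N m : ℕ} (hN : 0 < N) {u : ℂ} {F : ℍ → ℂ} (hF : IntQ N m u F) (hi : Inv F)
    (hu : u ≠ 0) : N ∣ m := by
  have ht := intQ_tendsto hN hF
  have hT : Tendsto (fun τ : ℍ => ModularGroup.T • τ) atImInfty atImInfty := by
    rw [atImInfty, tendsto_comap_iff]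
    have : (UpperHalfPlane.im ∘ fun τ : ℍ => ModularGroup.T • τ) = UpperHalfPlane.im := by
      funext τ
      rw [Function.comp_apply, UpperHalfPlane.modular_T_smul, UpperHalfPlane.vadd_im]
    rw [this]
    exact tendsto_comap
  have ht2 := ht.comp hT
  have hw : ∀ τ : ℍ, wp N (ModularGroup.T • τ) =
      Complex.exp (2 * Real.pi * Complex.I / N) * wp N τ := by
    intro τ
    unfold wp
    rw [← Complex.exp_add]
    congr 1
    rw [UpperHalfPlane.modular_T_smul]
    simp
    ring
  have h3 : Tendsto (fun τ : ℍ => Complex.exp (2 * Real.pi * Complex.I / N) ^ m *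
      (wp N τ ^ m * F τ)) atImInfty (nhds u) := by
    refine ht2.congr (fun τ => ?_)
    simp only [Function.comp]
    rw [hw τ, hi ModularGroup.T τ, mul_pow]
    ring
  have h4 : Tendsto (fun τ : ℍ => Complex.exp (2 * Real.pi * Complex.I / N) ^ m *
      (wp N τ ^ m * F τ)) atImInfty
      (nhds (Complex.exp (2 * Real.pi * Complex.I / N) ^ m * u)) := ht.const_mul _
  have h5 := tendsto_nhds_unique h3 h4
  have h6 : Complex.exp (2 * Real.pi * Complex.I / N) ^ m = 1 := by
    have : (Complex.exp (2 * Real.pi * Complex.I / N) ^ m - 1) * u = 0 := by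
      rw [sub_mul, ← h5, one_mul, sub_self]
    rcases mul_eq_zero.1 this with h | h
    · exact sub_eq_zero.1 h
    · exact absurd h hu
  exact (Complex.isPrimitiveRoot_exp N hN.ne').dvd_of_pow_eq_one m h6

theorem zp3_integral {N m : ℕ} {u : ℂ} {F : ℍ → ℂ} (hF : IntQ N m u F) : IsIntegral ℤ u := by
  obtain ⟨c, hc, hi, _⟩ := hF
  rw [← hc]
  exact hi 0

theorem inv_poly {N : ℕ} (hN : 0 < N) (m : ℕ) : ∀ (u : ℂ) (F : ℍ → ℂ), IntQ N m u F → Inv F →
    Hol F → ∃ P : Polynomial Oalg, (∀ τ, F τ = Polynomial.aeval (jfun τ) P) ∧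
      P.natDegree * N ≤ m ∧ (u ≠ 0 → N ∣ m ∧ ((P.coeff (m / N) : Oalg) : ℂ) = u) := by
  induction m with
  | zero =>
    intro u F hF hi hh
    refine ⟨Polynomial.C ⟨u, zp3_integral hF⟩, ?_, ?_, ?_⟩
    · intro τ
      have h1 : F τ = u := congrFun (inv_const hN hF hi hh) τ
      rw [h1, Polynomial.aeval_C]
      rfl
    · simp
    · intro _
      refine ⟨dvd_zero _, ?_⟩
      simp
  | succ m ih =>
    intro u F hF hi hh
    by_cases hu : u = 0
    · subst hu
      obtain ⟨u', _, hF'⟩ := intQ_lower hF
      obtain ⟨P, h1, h2, _⟩ := ih u' F hF' hi hh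
      exact ⟨P, h1, h2.trans (Nat.le_succ m), fun h => absurd rfl h⟩
    · obtain ⟨k, hk⟩ := inv_dvd hN hF hi hu
      have hui := zp3_integral hF
      have hj1 : IntQ 1 (k * 1) (1 ^ k) (fun τ => jfun τ ^ k) := intQ_pow one_pos intQ_jfun k
      have hj2 := intQ_refine N hN hj1
      have hj3 := intQ_mul (N := 1 * N) (by simpa using hN) (intQ_const (1 * N) u hui) hj2
      have hj4 := intQ_neg hj3
      have e1 : 1 * N = N := one_mul N
      have e2 : 0 + k * 1 * N = m + 1 := by
        rw [hk]
        ring
      have e3 : -(u * 1 ^ k) = -u := by simp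
      rw [e1, e2, e3] at hj4
      have hG := intQ_add hF hj4
      rw [add_neg_cancel] at hG
      obtain ⟨u', _, hG'⟩ := intQ_lower hG
      have hGi : Inv (fun τ => F τ + -(u * jfun τ ^ k)) := by
        intro γ τ
        simp only
        rw [hi γ τ, inv_jfun γ τ]
      have hGh : Hol (fun τ => F τ + -(u * jfun τ ^ k)) := by
        have h1 : Hol (fun τ => u * jfun τ ^ k) := by
          unfold Hol
          exact mdifferentiable_const.mul (hol_jfun.pow k)
        exact MDifferentiable.add hh h1.neg
      obtain ⟨P, h1, h2, _⟩ := ih u' _ hG' hGi hGh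
      have hdeg : P.natDegree < k := by
        by_contra hcon
        push Not at hcon
        have : N * k ≤ P.natDegree * N := by
          rw [mul_comm N k]
          exact Nat.mul_le_mul_right N hcon
        omega
      refine ⟨P + Polynomial.monomial k ⟨u, hui⟩, ?_, ?_, ?_⟩
      · intro τ
        have := h1 τ
        rw [map_add, ← this, Polynomial.aeval_monomial]
        change F τ = F τ + -(u * jfun τ ^ k) + u * jfun τ ^ k
        ring
      · have h3 : (P + Polynomial.monomial k (⟨u, hui⟩ : Oalg)).natDegree ≤ k := by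
          refine (Polynomial.natDegree_add_le _ _).trans (max_le hdeg.le ?_)
          exact Polynomial.natDegree_monomial_le _
        calc (P + Polynomial.monomial k (⟨u, hui⟩ : Oalg)).natDegree * N ≤ k * N :=
              Nat.mul_le_mul_right N h3
          _ = m + 1 := by rw [hk, mul_comm]
      · intro _
        refine ⟨⟨k, hk⟩, ?_⟩
        rw [hk, Nat.mul_div_cancel_left k hN, Polynomial.coeff_add,
          Polynomial.coeff_eq_zero_of_natDegree_lt hdeg, Polynomial.coeff_monomial]
        simp

end ZP38
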