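import Mathlib
import Pool.Agent.LibZP38.Defs

/-! TASK ZP4: representatives of integral matrices of determinant `N` modulo `SL(2, ℤ)`.
(`hj : Inv jfun` is proved elsewhere.) -/

namespace ZP38

open UpperHalfPlane

theorem zp4_mem_idx {N : ℕ} (hN : 0 < N) {p : ℕ × ℕ} : p ∈ idx N ↔ p.1 ∣ N ∧ p.2 < N / p.1 := by
  unfold idx
  rw [Finset.mem_filter, Finset.mem_product, Nat.mem_divisors, Finset.mem_range]
  constructor
  · rintro ⟨⟨⟨h1, _⟩, _⟩, h2⟩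
    exact ⟨h1, h2⟩
  · rintro ⟨h1, h2⟩
    exact ⟨⟨⟨h1, hN.ne'⟩, lt_of_lt_of_le h2 (Nat.div_le_self _ _)⟩, h2⟩

theorem det_hm {N : ℕ} (hN : 0 < N) {p : ℕ × ℕ} (hp : p ∈ idx N) : (hm N p).det = N := by
  have h := ((zp4_mem_idx hN).1 hp).1
  rw [hm, Matrix.det_fin_two_of]
  have : ((p.1 * (N / p.1) : ℕ) : ℤ) = N := by rw [Nat.mul_div_cancel' h]
  push_cast at this ⊢
  rw [mul_zero, sub_zero]
  exact_mod_cast this

theorem zp4_denom_ne (A : Matrix (Fin 2) (Fin 2) ℤ) (hA : 0 < A.det) (τ : ℍ) :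
    ((A 1 0 : ℤ) : ℂ) * (τ : ℂ) + ((A 1 1 : ℤ) : ℂ) ≠ 0 := by
  intro h
  have him := congrArg Complex.im h
  have hre := congrArg Complex.re h
  simp only [Complex.add_im, Complex.mul_im, Complex.intCast_re, Complex.intCast_im, zero_mul,
    add_zero, Complex.zero_im, Complex.add_re, Complex.mul_re, sub_zero, Complex.zero_re] at him hre
  have hτ : (τ : ℂ).im ≠ 0 := τ.im_pos.ne'
  have h1 : ((A 1 0 : ℤ) : ℝ) = 0 := by
    rcases mul_eq_zero.1 him with h | h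
    · exact h
    · exact absurd h hτ
  rw [h1, zero_mul, zero_add] at hre
  have h2 : A 1 0 = 0 := by exact_mod_cast h1
  have h3 : A 1 1 = 0 := by exact_mod_cast hre
  rw [Matrix.det_fin_two, h2, h3] at hA
  simp at hA

theorem zp4_im_pos (A : Matrix (Fin 2) (Fin 2) ℤ) (hA : 0 < A.det) (τ : ℍ) :
    0 < (((A 0 0 : ℤ) * (τ : ℂ) + (A 0 1 : ℤ)) / ((A 1 0 : ℤ) * (τ : ℂ) + (A 1 1 : ℤ)) : ℂ).im := by
  have hne := zp4_denom_ne A hA τ
  have hnn : 0 < Complex.normSq ((A 1 0 : ℤ) * (τ : ℂ) + (A 1 1 : ℤ)) := Complex.normSq_pos.2 hne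
  rw [Complex.div_im]
  have key : ((((A 0 0 : ℤ) * (τ : ℂ) + (A 0 1 : ℤ)) : ℂ).im *
      (((A 1 0 : ℤ) * (τ : ℂ) + (A 1 1 : ℤ)) : ℂ).re - (((A 0 0 : ℤ) * (τ : ℂ) + (A 0 1 : ℤ)) : ℂ).re *
      (((A 1 0 : ℤ) * (τ : ℂ) + (A 1 1 : ℤ)) : ℂ).im) = (A.det : ℝ) * (τ : ℂ).im := by
    rw [Matrix.det_fin_two]
    simp only [Complex.add_im, Complex.mul_im, Complex.intCast_re, Complex.intCast_im, zero_mul,
      add_zero, Complex.add_re, Complex.mul_re, sub_zero]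
    push_cast
    ring
  have h1 : 0 < (A.det : ℝ) * (τ : ℂ).im := by
    have : (0 : ℝ) < (A.det : ℝ) := by exact_mod_cast hA
    exact mul_pos this τ.im_pos
  rw [← sub_div, key]
  exact div_pos h1 hnn

theorem zp4_coe (A : Matrix (Fin 2) (Fin 2) ℤ) (hA : 0 < A.det) (τ : ℍ) :
    ((ofComplex (((A 0 0 : ℤ) * (τ : ℂ) + (A 0 1 : ℤ)) /
      ((A 1 0 : ℤ) * (τ : ℂ) + (A 1 1 : ℤ)) : ℂ) : ℍ) : ℂ) =
      ((A 0 0 : ℤ) * (τ : ℂ) + (A 0 1 : ℤ)) / ((A 1 0 : ℤ) * (τ : ℂ) + (A 1 1 : ℤ)) := by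
  rw [ofComplex_apply_of_im_pos (zp4_im_pos A hA τ)]

theorem zp4_coe_smul (γ : Matrix.SpecialLinearGroup (Fin 2) ℤ) (τ : ℍ) :
    ((γ • τ : ℍ) : ℂ) = (((γ : Matrix (Fin 2) (Fin 2) ℤ) 0 0 : ℤ) * (τ : ℂ) +
      ((γ : Matrix (Fin 2) (Fin 2) ℤ) 0 1 : ℤ)) / (((γ : Matrix (Fin 2) (Fin 2) ℤ) 1 0 : ℤ) * (τ : ℂ) +
      ((γ : Matrix (Fin 2) (Fin 2) ℤ) 1 1 : ℤ)) := by
  rw [UpperHalfPlane.coe_specialLinearGroup_apply]
  simp

theorem zp4_alg (a b p q r s t : ℂ) (h : r * t + s ≠ 0) :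
    a * ((p * t + q) / (r * t + s)) + b = ((a * p + b * r) * t + (a * q + b * s)) / (r * t + s) := by
  rw [eq_div_iff h, add_mul, mul_assoc, div_mul_cancel₀ _ h]
  ring

/-- `j (γ A τ) = j (A τ)`. -/
theorem jm_smul (hj : Inv jfun) (γ : Matrix.SpecialLinearGroup (Fin 2) ℤ)
    (A : Matrix (Fin 2) (Fin 2) ℤ) (hA : 0 < A.det) (τ : ℍ) :
    jm ((γ : Matrix (Fin 2) (Fin 2) ℤ) * A) τ = jm A τ := by
  have hA' : 0 < ((γ : Matrix (Fin 2) (Fin 2) ℤ) * A).det := by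
    rw [Matrix.det_mul, γ.2, one_mul]; exact hA
  unfold jm
  refine Eq.trans ?_ (hj γ (ofComplex _))
  congr 1
  apply UpperHalfPlane.ext
  rw [zp4_coe _ hA', zp4_coe_smul, zp4_coe _ hA]
  have h1 := zp4_denom_ne A hA τ
  rw [zp4_alg _ _ _ _ _ _ _ h1, zp4_alg _ _ _ _ _ _ _ h1, div_div_div_cancel_right₀ h1]
  simp only [Matrix.mul_apply, Fin.sum_univ_two]
  push_cast
  ring_nf

/-- `j (A (γ τ)) = j ((A γ) τ)`. -/
theorem jm_comp (γ : Matrix.SpecialLinearGroup (Fin 2) ℤ)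
    (A : Matrix (Fin 2) (Fin 2) ℤ) (hA : 0 < A.det) (τ : ℍ) :
    jm A (γ • τ) = jm (A * (γ : Matrix (Fin 2) (Fin 2) ℤ)) τ := by
  unfold jm
  congr 2
  have hγ : (0 : ℤ) < (γ : Matrix (Fin 2) (Fin 2) ℤ).det := by rw [γ.2]; norm_num
  have h1 := zp4_denom_ne _ hγ τ
  rw [zp4_coe_smul, zp4_alg _ _ _ _ _ _ _ h1, zp4_alg _ _ _ _ _ _ _ h1,
    div_div_div_cancel_right₀ h1]
  simp only [Matrix.mul_apply, Fin.sum_univ_two]
  push_cast
  ring_nf

/-- Hermite normal form. -/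
theorem exists_hm (N : ℕ) (hN : 0 < N) (A : Matrix (Fin 2) (Fin 2) ℤ) (hA : A.det = N) :
    ∃ p ∈ idx N, ∃ γ : Matrix.SpecialLinearGroup (Fin 2) ℤ,
      A = (γ : Matrix (Fin 2) (Fin 2) ℤ) * hm N p := by
  obtain ⟨x, y, z, w, rfl⟩ : ∃ x y z w : ℤ, A = !![x, y; z, w] :=
    ⟨A 0 0, A 0 1, A 1 0, A 1 1, Matrix.eta_fin_two A⟩
  rw [Matrix.det_fin_two_of] at hA
  have hNz : (0 : ℤ) < N := by exact_mod_cast hN
  have hg0 : 0 < Int.gcd x z := by
    rw [Int.gcd_pos_iff]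
    by_contra h
    push Not at h
    rw [h.1, h.2] at hA
    simp at hA
    omega
  obtain ⟨x', hx'⟩ : ((Int.gcd x z : ℕ) : ℤ) ∣ x := Int.gcd_dvd_left ..
  obtain ⟨z', hz'⟩ : ((Int.gcd x z : ℕ) : ℤ) ∣ z := Int.gcd_dvd_right ..
  have hbez := Int.gcd_eq_gcd_ab x z
  set g : ℕ := Int.gcd x z with hg
  set u := Int.gcdA x z
  set v := Int.gcdB x z
  have hgz : (0 : ℤ) < g := by exact_mod_cast hg0
  have h1 : x' * u + z' * v = 1 := by
    have : (g : ℤ) * (x' * u + z' * v) = g * 1 := by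
      rw [mul_one]
      calc (g : ℤ) * (x' * u + z' * v) = (g * x') * u + (g * z') * v := by ring
        _ = g := by rw [← hx', ← hz', ← hbez]
    exact mul_left_cancel₀ hgz.ne' this
  -- N = g * d
  have h2 : (N : ℤ) = g * (x' * w - y * z') := by
    rw [← hA]
    calc x * w - y * z = (g * x') * w - y * (g * z') := by rw [← hx', ← hz']
      _ = _ := by ring
  have hdvd : g ∣ N := by
    have : (g : ℤ) ∣ N := ⟨_, h2⟩
    exact_mod_cast this
  obtain ⟨d, hd⟩ := hdvd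
  have hd0 : 0 < d := by
    rcases Nat.eq_zero_or_pos d with h | h
    · rw [h] at hd; omega
    · exact h
  have hdz : (d : ℤ) = x' * w - y * z' := by
    apply mul_left_cancel₀ hgz.ne'
    rw [← h2, hd]; push_cast; ring
  have hNg : N / g = d := by rw [hd, Nat.mul_div_cancel_left _ hg0]
  set b' : ℤ := u * y + v * w with hb'
  have hmod0 : 0 ≤ b' % (d : ℤ) := Int.emod_nonneg _ (by positivity)
  have hmod1 : b' % (d : ℤ) < d := Int.emod_lt_of_pos _ (by exact_mod_cast hd0)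
  obtain ⟨b, hb⟩ := Int.eq_ofNat_of_zero_le hmod0
  have hbd : b < d := by
    have : (b : ℤ) < d := by rw [← hb]; exact hmod1
    exact_mod_cast this
  set k : ℤ := b' / (d : ℤ) with hk
  have hbk : b' = b + d * k := by
    rw [← hb, hk]; exact (Int.emod_add_mul_ediv b' d).symm
  refine ⟨(g, b), (zp4_mem_idx hN).2 ⟨⟨d, hd⟩, by rw [hNg]; exact hbd⟩,
    ⟨!![x', x' * k - v; z', z' * k + u], ?_⟩, ?_⟩
  · rw [Matrix.det_fin_two_of]
    linear_combination h1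
  · show !![x, y; z, w] = !![x', x' * k - v; z', z' * k + u] * hm N (g, b)
    rw [hm]
    simp only
    rw [hNg, Matrix.mul_fin_two]
    have e1 : x' * (g : ℤ) + (x' * k - v) * 0 = x := by rw [hx']; ring
    have e3 : z' * (g : ℤ) + (z' * k + u) * 0 = z := by rw [hz']; ring
    have e2 : x' * (b : ℤ) + (x' * k - v) * (d : ℤ) = y := by
      have : x' * (b : ℤ) + (x' * k - v) * (d : ℤ) = x' * b' - v * d := by rw [hbk]; ring
      rw [this, hb', hdz]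
      linear_combination y * h1
    have e4 : z' * (b : ℤ) + (z' * k + u) * (d : ℤ) = w := by
      have : z' * (b : ℤ) + (z' * k + u) * (d : ℤ) = z' * b' + u * d := by rw [hbk]; ring
      rw [this, hb', hdz]
      linear_combination w * h1
    rw [e1, e2, e3, e4]

/-- Uniqueness of the Hermite normal form. -/
theorem hm_unique (N : ℕ) (hN : 0 < N) (p p' : ℕ × ℕ) (hp : p ∈ idx N) (hp' : p' ∈ idx N)
    (γ : Matrix.SpecialLinearGroup (Fin 2) ℤ)
    (h : hm N p' = (γ : Matrix (Fin 2) (Fin 2) ℤ) * hm N p) : p = p' := by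
  obtain ⟨h1, h2⟩ := (zp4_mem_idx hN).1 hp
  obtain ⟨h1', h2'⟩ := (zp4_mem_idx hN).1 hp'
  obtain ⟨a, b⟩ := p
  obtain ⟨a', b'⟩ := p'
  simp only at h1 h2 h1' h2'
  have ha : 0 < a := Nat.pos_of_dvd_of_pos h1 hN
  have ha' : 0 < a' := Nat.pos_of_dvd_of_pos h1' hN
  obtain ⟨α, β, δ, ε, hγ⟩ : ∃ α β δ ε : ℤ, (γ : Matrix (Fin 2) (Fin 2) ℤ) = !![α, β; δ, ε] :=
    ⟨_, _, _, _, Matrix.eta_fin_two _⟩
  have hdet : α * ε - β * δ = 1 := by
    have := γ.2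
    rw [hγ, Matrix.det_fin_two_of] at this
    exact this
  rw [hγ, hm, hm, Matrix.mul_fin_two] at h
  have e00 := congrFun (congrFun h 0) 0
  have e10 := congrFun (congrFun h 1) 0
  have e01 := congrFun (congrFun h 0) 1
  simp at e00 e10 e01
  have hδ : δ = 0 := by
    rcases e10 with h | h
    · exact h
    · omega
  rw [hδ, mul_zero, sub_zero] at hdet
  have haz : (0 : ℤ) < a := by exact_mod_cast ha
  have haz' : (0 : ℤ) < a' := by exact_mod_cast ha'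
  have hα : α = 1 := by
    rcases Int.eq_one_or_neg_one_of_mul_eq_one hdet with h | h
    · exact h
    · rw [h] at e00; nlinarith
  rw [hα, one_mul] at e00 e01
  have haa : a' = a := by exact_mod_cast e00
  subst haa
  have hbb : (b' : ℤ) = b + β * ((N / a' : ℕ) : ℤ) := by
    rw [e01]; push_cast; rfl
  have hβ : β = 0 := by
    set d : ℕ := N / a'
    have c1 : (b : ℤ) < d := by exact_mod_cast h2
    have c2 : (b' : ℤ) < d := by exact_mod_cast h2'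
    have c3 : (0 : ℤ) ≤ b := by positivity
    have c4 : (0 : ℤ) ≤ b' := by positivity
    by_contra hne
    rcases lt_or_gt_of_ne hne with hlt | hgt
    · have : β ≤ -1 := by omega
      nlinarith
    · have : 1 ≤ β := by omega
      nlinarith
  rw [hβ, zero_mul, add_zero] at hbb
  have : b' = b := by exact_mod_cast hbb
  rw [this]

/-- Symmetric expressions in the functions `j (A τ)` are invariant. -/
theorem prod_inv (hj : Inv jfun) (N : ℕ) (hN : 0 < N) {R : Type*} [CommMonoid R] (g : ℂ → R)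
    (γ : Matrix.SpecialLinearGroup (Fin 2) ℤ) (τ : ℍ) :
    ∏ p ∈ idx N, g (jm (hm N p) (γ • τ)) = ∏ p ∈ idx N, g (jm (hm N p) τ) := by
  classical
  have hdet : ∀ p ∈ idx N, (hm N p * (γ : Matrix (Fin 2) (Fin 2) ℤ)).det = N := by
    intro p hp
    rw [Matrix.det_mul, γ.2, mul_one, det_hm hN hp]
  have hex : ∀ p : ℕ × ℕ, ∃ q : ℕ × ℕ, ∃ δ : Matrix.SpecialLinearGroup (Fin 2) ℤ, p ∈ idx N →
      q ∈ idx N ∧ hm N p * (γ : Matrix (Fin 2) (Fin 2) ℤ) =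
        (δ : Matrix (Fin 2) (Fin 2) ℤ) * hm N q := by
    intro p
    by_cases hp : p ∈ idx N
    · obtain ⟨q, hq, δ, h⟩ := exists_hm N hN _ (hdet p hp)
      exact ⟨q, δ, fun _ => ⟨hq, h⟩⟩
    · exact ⟨p, 1, fun h => absurd h hp⟩
  choose σ δ hσ using hex
  have hinj : ∀ p ∈ idx N, ∀ p' ∈ idx N, σ p = σ p' → p = p' := by
    intro p hp p' hp' h
    have h1 := (hσ p hp).2
    have h2 := (hσ p' hp').2
    rw [← h] at h2
    refine hm_unique N hN p p' hp hp' (δ p' * (δ p)⁻¹) ?_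
    have h3 : hm N (σ p) = (((δ p)⁻¹ : Matrix.SpecialLinearGroup (Fin 2) ℤ) :
        Matrix (Fin 2) (Fin 2) ℤ) * (hm N p * (γ : Matrix (Fin 2) (Fin 2) ℤ)) := by
      rw [h1, ← Matrix.mul_assoc, ← Matrix.SpecialLinearGroup.coe_mul, inv_mul_cancel,
        Matrix.SpecialLinearGroup.coe_one, Matrix.one_mul]
    have h4 : hm N p' = (hm N p' * (γ : Matrix (Fin 2) (Fin 2) ℤ)) *
        ((γ⁻¹ : Matrix.SpecialLinearGroup (Fin 2) ℤ) : Matrix (Fin 2) (Fin 2) ℤ) := by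
      rw [Matrix.mul_assoc, ← Matrix.SpecialLinearGroup.coe_mul, mul_inv_cancel,
        Matrix.SpecialLinearGroup.coe_one, Matrix.mul_one]
    rw [h4, h2, h3, Matrix.SpecialLinearGroup.coe_mul]
    simp only [Matrix.mul_assoc]
    rw [← Matrix.SpecialLinearGroup.coe_mul, mul_inv_cancel,
      Matrix.SpecialLinearGroup.coe_one, Matrix.mul_one]
  refine Finset.prod_bij (fun p _ => σ p) (fun p hp => (hσ p hp).1) (fun p hp p' hp' h =>
    hinj p hp p' hp' h) ?_ ?_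
  · intro b hb
    obtain ⟨a, ha, h⟩ := Finset.surj_on_of_inj_on_of_card_le (fun p _ => σ p)
      (fun p hp => (hσ p hp).1) (fun p p' hp hp' h => hinj p hp p' hp' h) le_rfl b hb
    exact ⟨a, ha, h.symm⟩
  · intro p hp
    have hpos : 0 < (hm N p).det := by rw [det_hm hN hp]; exact_mod_cast hN
    have hpos' : 0 < (hm N (σ p)).det := by rw [det_hm hN (hσ p hp).1]; exact_mod_cast hN
    rw [jm_comp γ _ hpos τ, (hσ p hp).2, jm_smul hj _ _ hpos']

end ZP38
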