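import Mathlib
import Pool.Agent.LibZP38.T3
import Pool.Agent.LibZP38.T4

/-! TASK ZP5: integrality of `j` along isogenies and of singular moduli. -/

namespace ZP38

open UpperHalfPlane

/-- The modular polynomial `∏ (X - j (A τ))` at the point `τ`. -/
noncomputable def mpol (N : ℕ) (τ : ℍ) : Polynomial ℂ :=
  ∏ p ∈ idx N, (Polynomial.X - Polynomial.C (jm (hm N p) τ))

theorem mpol_coeff_inv (N : ℕ) (hN : 0 < N) (k : ℕ) : Inv (fun τ => (mpol N τ).coeff k) := by
  intro γ τ
  have h := prod_inv inv_jfun N hN (fun x : ℂ => (Polynomial.X - Polynomial.C x)) γ τ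
  simp only [mpol]
  rw [h]

theorem zp5_hol_add {F G : ℍ → ℂ} (hF : Hol F) (hG : Hol G) : Hol (fun τ => F τ + G τ) :=
  MDifferentiable.add hF hG

theorem zp5_hol_sub {F G : ℍ → ℂ} (hF : Hol F) (hG : Hol G) : Hol (fun τ => F τ - G τ) :=
  MDifferentiable.sub hF hG

theorem zp5_hol_mul {F G : ℍ → ℂ} (hF : Hol F) (hG : Hol G) : Hol (fun τ => F τ * G τ) :=
  MDifferentiable.mul hF hG

theorem zp5_hol_const (c : ℂ) : Hol (fun _ => c) := mdifferentiable_const

theorem zp5_coeff_hol {ι : Type*} (s : Finset ι) (f : ι → ℍ → ℂ) (hf : ∀ i ∈ s, Hol (f i)) :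
    ∀ k : ℕ, Hol (fun τ => (∏ i ∈ s, (Polynomial.X - Polynomial.C (f i τ))).coeff k) := by
  classical
  induction s using Finset.induction_on with
  | empty =>
    intro k
    simp only [Finset.prod_empty]
    exact zp5_hol_const _
  | insert a s ha ih =>
    intro k
    have ih' := ih (fun i hi => hf i (Finset.mem_insert_of_mem hi))
    have hfa := hf a (Finset.mem_insert_self a s)
    simp only [Finset.prod_insert ha, sub_mul, Polynomial.coeff_sub, Polynomial.coeff_C_mul]
    cases k with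
    | zero =>
      simp only [Polynomial.mul_coeff_zero, Polynomial.coeff_X_zero, zero_mul]
      exact zp5_hol_sub (zp5_hol_const 0) (zp5_hol_mul hfa (ih' 0))
    | succ k =>
      simp only [Polynomial.coeff_X_mul]
      exact zp5_hol_sub (ih' k) (zp5_hol_mul hfa (ih' (k + 1)))

theorem zp5_det_pos {N : ℕ} (hN : 0 < N) {p : ℕ × ℕ} (hp : p ∈ idx N) : 0 < (hm N p).det := by
  rw [det_hm hN hp]
  exact_mod_cast hN

theorem mpol_coeff_hol (N : ℕ) (hN : 0 < N) (k : ℕ) : Hol (fun τ => (mpol N τ).coeff k) := by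
  simp only [mpol]
  exact zp5_coeff_hol (idx N) (fun p => jm (hm N p))
    (fun p hp => hol_jm (hm N p) (zp5_det_pos hN hp)) k

/-- A function with some integral expansion. -/
def zp5_Q (N : ℕ) (F : ℍ → ℂ) : Prop := ∃ m u, IntQ N m u F

theorem zp5_Q_raise {N m : ℕ} {u : ℂ} {F : ℍ → ℂ} (hF : IntQ N m u F) (m' : ℕ) (h : m ≤ m') :
    ∃ u', IntQ N m' u' F := by
  rcases Nat.eq_or_lt_of_le h with rfl | h
  · exact ⟨u, hF⟩
  · refine ⟨0, ?_⟩
    have := intQ_raise hF (m' - m) (by omega)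
    rwa [Nat.add_sub_cancel' (le_of_lt h)] at this

theorem zp5_Q_add {N : ℕ} {F G : ℍ → ℂ} (hF : zp5_Q N F) (hG : zp5_Q N G) :
    zp5_Q N (fun τ => F τ + G τ) := by
  obtain ⟨m, u, hF⟩ := hF
  obtain ⟨m', u', hG⟩ := hG
  obtain ⟨v, hv⟩ := zp5_Q_raise hF (max m m') (le_max_left _ _)
  obtain ⟨v', hv'⟩ := zp5_Q_raise hG (max m m') (le_max_right _ _)
  exact ⟨_, _, intQ_add hv hv'⟩

theorem zp5_Q_neg {N : ℕ} {F : ℍ → ℂ} (hF : zp5_Q N F) :
    zp5_Q N (fun τ => - F τ) := by
  obtain ⟨m, u, hF⟩ := hF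
  exact ⟨_, _, intQ_neg hF⟩

theorem zp5_Q_sub {N : ℕ} {F G : ℍ → ℂ} (hF : zp5_Q N F) (hG : zp5_Q N G) :
    zp5_Q N (fun τ => F τ - G τ) := by
  have := zp5_Q_add hF (zp5_Q_neg hG)
  simpa only [sub_eq_add_neg] using this

theorem zp5_Q_mul {N : ℕ} (hN : 0 < N) {F G : ℍ → ℂ} (hF : zp5_Q N F) (hG : zp5_Q N G) :
    zp5_Q N (fun τ => F τ * G τ) := by
  obtain ⟨m, u, hF⟩ := hF
  obtain ⟨m', u', hG⟩ := hG
  exact ⟨_, _, intQ_mul hN hF hG⟩

theorem zp5_Q_int (N : ℕ) (x : ℂ) (hx : IsIntegral ℤ x) : zp5_Q N (fun _ => x) :=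
  ⟨_, _, intQ_const N x hx⟩

theorem zp5_coeff_Q {N : ℕ} (hN : 0 < N) {ι : Type*} (s : Finset ι) (f : ι → ℍ → ℂ)
    (hf : ∀ i ∈ s, zp5_Q N (f i)) :
    ∀ k : ℕ, zp5_Q N (fun τ => (∏ i ∈ s, (Polynomial.X - Polynomial.C (f i τ))).coeff k) := by
  classical
  induction s using Finset.induction_on with
  | empty =>
    intro k
    simp only [Finset.prod_empty, Polynomial.coeff_one]
    apply zp5_Q_int
    split_ifs
    · exact isIntegral_one
    · exact isIntegral_zero
  | insert a s ha ih =>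
    intro k
    have ih' := ih (fun i hi => hf i (Finset.mem_insert_of_mem hi))
    have hfa := hf a (Finset.mem_insert_self a s)
    simp only [Finset.prod_insert ha, sub_mul, Polynomial.coeff_sub, Polynomial.coeff_C_mul]
    cases k with
    | zero =>
      simp only [Polynomial.mul_coeff_zero, Polynomial.coeff_X_zero, zero_mul]
      exact zp5_Q_sub (zp5_Q_int N 0 isIntegral_zero) (zp5_Q_mul hN hfa (ih' 0))
    | succ k =>
      simp only [Polynomial.coeff_X_mul]
      exact zp5_Q_sub (ih' k) (zp5_Q_mul hN hfa (ih' (k + 1)))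

theorem mpol_coeff_intQ (N : ℕ) (hN : 0 < N) (k : ℕ) :
    ∃ m u, IntQ N m u (fun τ => (mpol N τ).coeff k) := by
  simp only [mpol]
  refine zp5_coeff_Q hN (idx N) (fun p => jm (hm N p)) (fun p hp => ?_) k
  obtain ⟨u, -, h⟩ := intQ_jm N hN p hp
  exact ⟨_, _, h⟩

/-- The coefficients of the modular polynomial are polynomials in `j`. -/
theorem mpol_coeff_poly (N : ℕ) (hN : 0 < N) (k : ℕ) :
    ∃ P : Polynomial Oalg, ∀ τ, (mpol N τ).coeff k = Polynomial.aeval (jfun τ) P := by
  obtain ⟨m, u, h⟩ := mpol_coeff_intQ N hN k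
  obtain ⟨P, hP, -⟩ := inv_poly hN m u _ h (mpol_coeff_inv N hN k) (mpol_coeff_hol N hN k)
  exact ⟨P, hP⟩

theorem zp5_mpol_monic (N : ℕ) (τ : ℍ) : (mpol N τ).Monic := by
  unfold mpol
  exact Polynomial.monic_prod_of_monic _ _ (fun p _ => Polynomial.monic_X_sub_C _)

/-- The value of `j` at an isogenous point. -/
theorem zp5_isog_value {τ τ' : ℍ} {A : Matrix (Fin 2) (Fin 2) ℤ} {N : ℕ} (hN : 0 < N)
    (hA : A.det = N)
    (h : (τ' : ℂ) * (A 1 0 * (τ : ℂ) + A 1 1) = A 0 0 * (τ : ℂ) + A 0 1) :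
    ∃ p ∈ idx N, jm (hm N p) τ = jfun τ' := by
  have hne : (A 1 0 * (τ : ℂ) + A 1 1) ≠ 0 := by
    intro h0
    have him := congrArg Complex.im h0
    have hre := congrArg Complex.re h0
    simp only [Complex.add_im, Complex.mul_im, Complex.intCast_re, Complex.intCast_im, zero_mul,
      add_zero, Complex.zero_im, Complex.add_re, Complex.mul_re, sub_zero, Complex.zero_re,
      mul_eq_zero] at him hre
    have him' : (τ : ℂ).im ≠ 0 := ne_of_gt τ.im_pos
    have hc : A 1 0 = 0 := by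
      rcases him with h | h
      · exact_mod_cast h
      · exact absurd h him'
    have hd : A 1 1 = 0 := by
      rw [hc] at hre
      simp only [Int.cast_zero, zero_mul, zero_add] at hre
      exact_mod_cast hre
    rw [Matrix.det_fin_two, hc, hd] at hA
    have : (N : ℤ) = 0 := by rw [← hA]; ring
    omega
  obtain ⟨p, hp, γ, hγ⟩ := exists_hm N hN A hA
  refine ⟨p, hp, ?_⟩
  have h1 := jm_smul inv_jfun γ (hm N p) (zp5_det_pos hN hp) τ
  rw [← hγ] at h1
  rw [← h1]
  have h2 : (A 0 0 * (τ : ℂ) + A 0 1) / (A 1 0 * (τ : ℂ) + A 1 1) = (τ' : ℂ) := by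
    rw [div_eq_iff hne]
    exact h.symm
  simp only [jm, h2, ofComplex_apply]

/-- Isogenous values are integral over each other. -/
theorem isog_integral {τ τ' : ℍ} (h : Isog τ τ') :
    ∃ P : Polynomial (Polynomial Oalg), P.Monic ∧
      Polynomial.eval₂ (Polynomial.aeval (jfun τ) : Polynomial Oalg →ₐ[Oalg] ℂ).toRingHom
        (jfun τ') P = 0 := by
  obtain ⟨a, b, c, d, hdet, h⟩ := h
  obtain ⟨N, hN⟩ := Int.eq_ofNat_of_zero_le (le_of_lt hdet)
  have hN0 : 0 < N := by omega
  obtain ⟨p, hp, hpj⟩ := zp5_isog_value (A := !![a, b; c, d]) (τ := τ) (τ' := τ') hN0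
    (by rw [Matrix.det_fin_two_of]; exact hN) (by simpa using h)
  have hl : mpol N τ ∈ Polynomial.lifts
      (Polynomial.aeval (jfun τ) : Polynomial Oalg →ₐ[Oalg] ℂ).toRingHom := by
    rw [Polynomial.lifts_iff_coeff_lifts]
    intro k
    obtain ⟨P, hP⟩ := mpol_coeff_poly N hN0 k
    exact ⟨P, (hP τ).symm⟩
  obtain ⟨P, hP1, -, hP2⟩ := Polynomial.lifts_and_natDegree_eq_and_monic hl (zp5_mpol_monic N τ)
  refine ⟨P, hP2, ?_⟩
  rw [← Polynomial.eval_map, hP1, ← hpj, mpol, Polynomial.eval_prod]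
  exact Finset.prod_eq_zero hp (by simp)

/-- `∏ (j τ - j (A τ))` is a polynomial in `j` whose leading coefficient is a root of unity up to
sign, if `N` is not a square. -/
theorem diag_poly (N : ℕ) (hN : 0 < N) (hsq : ¬ IsSquare N) :
    ∃ P : Polynomial Oalg, IsUnit P.leadingCoeff ∧
      ∀ τ, ∏ p ∈ idx N, (jfun τ - jm (hm N p) τ) = Polynomial.aeval (jfun τ) P := by
  have hj : IntQ N N 1 jfun := by
    have := intQ_refine N hN intQ_jfun
    rwa [one_mul] at this
  have hfac : ∀ p ∈ idx N, ∃ (m : ℕ) (u : ℂ), (∃ k : ℕ, 0 < k ∧ u ^ k = 1) ∧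
      IntQ N m u (fun τ => jfun τ - jm (hm N p) τ) := by
    intro p hp
    obtain ⟨u, ⟨k, hk, huk⟩, hu⟩ := intQ_jm N hN p hp
    have hneg := intQ_neg hu
    rcases lt_trichotomy (p.1 ^ 2) N with hlt | heq | hgt
    · refine ⟨N, 1, ⟨1, one_pos, one_pow 1⟩, ?_⟩
      have h1 := intQ_raise hneg (N - p.1 ^ 2) (by omega)
      rw [Nat.add_sub_cancel' hlt.le] at h1
      have h2 := intQ_add hj h1
      simpa only [add_zero, sub_eq_add_neg] using h2
    · exact absurd ⟨p.1, by rw [← heq]; ring⟩ hsq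
    · refine ⟨p.1 ^ 2, -u, ⟨2 * k, by omega, ?_⟩, ?_⟩
      · rw [pow_mul, neg_sq, ← pow_mul, mul_comm 2 k, pow_mul, huk, one_pow]
      · have h1 := intQ_raise hj (p.1 ^ 2 - N) (by omega)
        rw [Nat.add_sub_cancel' hgt.le] at h1
        have h2 := intQ_add h1 hneg
        simpa only [zero_add, sub_eq_add_neg] using h2
  choose! m u hu hQ using hfac
  have hprod := intQ_prod hN (idx N) m u (fun p τ => jfun τ - jm (hm N p) τ) hQ
  have hinv : Inv (fun τ => ∏ p ∈ idx N, (jfun τ - jm (hm N p) τ)) := by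
    intro γ τ
    have h := prod_inv inv_jfun N hN (fun x : ℂ => jfun τ - x) γ τ
    simp only [inv_jfun γ τ]
    exact h
  have hhol : Hol (fun τ => ∏ p ∈ idx N, (jfun τ - jm (hm N p) τ)) := by
    have key : ∀ s : Finset (ℕ × ℕ), s ⊆ idx N →
        Hol (fun τ => ∏ p ∈ s, (jfun τ - jm (hm N p) τ)) := by
      intro s
      induction s using Finset.induction_on with
      | empty =>
        intro _
        simp only [Finset.prod_empty]
        exact zp5_hol_const 1
      | insert a s ha ih =>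
        intro hs
        simp only [Finset.prod_insert ha]
        have ha' : a ∈ idx N := hs (Finset.mem_insert_self a s)
        exact zp5_hol_mul (zp5_hol_sub hol_jfun (hol_jm _ (zp5_det_pos hN ha')))
          (ih (fun x hx => hs (Finset.mem_insert_of_mem hx)))
    exact key _ (Finset.Subset.refl _)
  obtain ⟨P, hP, hdeg, hlead⟩ := inv_poly hN _ _ _ hprod hinv hhol
  have hroot : ∃ k : ℕ, 0 < k ∧ (∏ p ∈ idx N, u p) ^ k = 1 := by
    have key : ∀ s : Finset (ℕ × ℕ), s ⊆ idx N → ∃ k : ℕ, 0 < k ∧ (∏ p ∈ s, u p) ^ k = 1 := by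
      intro s
      induction s using Finset.induction_on with
      | empty =>
        intro _
        exact ⟨1, one_pos, by simp⟩
      | insert a s ha ih =>
        intro hs
        obtain ⟨k, hk, hk1⟩ := ih (fun x hx => hs (Finset.mem_insert_of_mem hx))
        obtain ⟨l, hl, hl1⟩ := hu a (hs (Finset.mem_insert_self a s))
        refine ⟨k * l, Nat.mul_pos hk hl, ?_⟩
        rw [Finset.prod_insert ha, mul_pow, mul_comm k l, pow_mul, hl1, one_pow, mul_comm l k,
          pow_mul, hk1, one_pow, one_mul]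
    exact key _ (Finset.Subset.refl _)
  obtain ⟨k, hk, hk1⟩ := hroot
  have hune : (∏ p ∈ idx N, u p) ≠ 0 := by
    intro h0
    rw [h0, zero_pow hk.ne'] at hk1
    exact zero_ne_one hk1
  obtain ⟨hdvd, hcoef⟩ := hlead hune
  refine ⟨P, ?_, hP⟩
  have hnd : P.natDegree = (∑ p ∈ idx N, m p) / N := by
    apply le_antisymm
    · rw [Nat.le_div_iff_mul_le hN]
      exact hdeg
    · apply Polynomial.le_natDegree_of_ne_zero
      intro h0
      rw [h0] at hcoef
      exact hune (by rw [← hcoef]; rfl)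
  have hlc : (P.leadingCoeff : Oalg) ^ k = 1 := by
    apply Subtype.ext
    rw [Polynomial.leadingCoeff, hnd]
    push_cast
    rw [hcoef, hk1]
  exact IsUnit.of_pow_eq_one hlc hk.ne'

/-- Singular moduli are algebraic integers. -/
theorem cm_integral {τ : ℍ} (h : IsCM τ) : IsIntegral ℤ (jfun τ) := by
  obtain ⟨a, b, c, ha, h⟩ := h
  have him := congrArg Complex.im h
  have hre := congrArg Complex.re h
  have hy : 0 < (τ : ℂ).im := τ.im_pos
  set x := (τ : ℂ).re with hx
  set y := (τ : ℂ).im with hyd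
  simp only [pow_two, Complex.add_im, Complex.mul_im, Complex.intCast_re, Complex.intCast_im,
    zero_mul, add_zero, Complex.zero_im, Complex.add_re, Complex.mul_re, sub_zero,
    Complex.zero_re, ← hx, ← hyd] at him hre
  have h1 : (2 * a * x + b : ℝ) = 0 := by
    have : y * (2 * a * x + b) = 0 := by linarith
    rcases mul_eq_zero.1 this with h | h
    · exact absurd h hy.ne'
    · exact h
  have h2 : (4 * a * c - b ^ 2 : ℝ) = 4 * a ^ 2 * y ^ 2 := by
    have hb : (b : ℝ) = - (2 * a * x) := by linarith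
    have hc : (c : ℝ) = - (a * (x * x - y * y)) - b * x := by linarith
    rw [hc, hb]
    ring
  have hD : 0 < 4 * a * c - b ^ 2 := by
    have haR : (a : ℝ) ≠ 0 := by exact_mod_cast ha
    have : (0 : ℝ) < 4 * a * c - b ^ 2 := by
      rw [h2]
      positivity
    exact_mod_cast this
  obtain ⟨D, hDD⟩ := Int.eq_ofNat_of_zero_le hD.le
  have hD0 : 0 < D := by omega
  have hN0 : 0 < D * (D + 1) := Nat.mul_pos hD0 (Nat.succ_pos _)
  have hnsq : ¬ IsSquare (D * (D + 1)) := by
    rintro ⟨r, hr⟩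
    have h3 : D < r := by
      by_contra hle
      push Not at hle
      have : r * r ≤ D * D := Nat.mul_le_mul hle hle
      nlinarith
    have h4 : r < D + 1 := by
      by_contra hle
      push Not at hle
      have : (D + 1) * (D + 1) ≤ r * r := Nat.mul_le_mul hle hle
      nlinarith
    omega
  obtain ⟨P, hP, hPv⟩ := diag_poly (D * (D + 1)) hN0 hnsq
  obtain ⟨p, hp, hpj⟩ := zp5_isog_value (A := !![(D : ℤ) - b, - 2 * c; 2 * a, (D : ℤ) + b])
    (τ := τ) (τ' := τ) hN0
    (by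
      rw [Matrix.det_fin_two_of]
      push_cast
      have : (4 * a * c - b ^ 2 : ℤ) = D := hDD
      linear_combination this)
    (by
      simp only [Matrix.of_apply, Matrix.cons_val', Matrix.cons_val_zero, Matrix.cons_val_one,
        Matrix.cons_val_fin_one]
      push_cast
      linear_combination 2 * h)
  have hzero : Polynomial.aeval (jfun τ) P = 0 := by
    rw [← hPv τ]
    exact Finset.prod_eq_zero hp (by rw [hpj, sub_self])
  have hint : IsIntegral Oalg (jfun τ) := by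
    obtain ⟨v, hv⟩ := hP
    refine ⟨Polynomial.C ((v⁻¹ : Oalgˣ) : Oalg) * P, ?_, ?_⟩
    · rw [Polynomial.Monic, Polynomial.leadingCoeff_mul, Polynomial.leadingCoeff_C, ← hv]
      exact Units.inv_mul v
    · rw [← Polynomial.aeval_def, map_mul, hzero, mul_zero]
  have : Algebra.IsIntegral ℤ Oalg := integralClosure.AlgebraIsIntegral
  exact isIntegral_trans (jfun τ) hint

end ZP38
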