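import Mathlib
import Pool.Agent.LibZP38.Defs

/-! Combination of finitely many patterns at different primes. -/

namespace ZP38

open MvPolynomial

/-- The symbols as linear forms with integral coefficients. -/
noncomputable def spolZ {d : ℕ} (p : ℕ) :
    Option (Fin (d + 1) × Bool) → MvPolynomial (Fin (d + 1)) ℤ
  | none => 0
  | some (j, false) => X j
  | some (j, true) => (p : MvPolynomial (Fin (d + 1)) ℤ) * X j

theorem spolZ_homog {d : ℕ} (p : ℕ) (s : Option (Fin (d + 1) × Bool)) :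
    (spolZ p s).IsHomogeneous 1 := by
  rcases s with _ | ⟨j, _ | _⟩
  · exact isHomogeneous_zero _ _ _
  · exact isHomogeneous_X _ _
  · have h1 : (p : MvPolynomial (Fin (d + 1)) ℤ) = C (p : ℤ) := by simp
    show ((p : MvPolynomial (Fin (d + 1)) ℤ) * X j).IsHomogeneous 1
    rw [h1]
    have h2 := (isHomogeneous_C (Fin (d + 1)) (p : ℤ)).mul (isHomogeneous_X ℤ j)
    simpa using h2

theorem aeval_spolZ {d : ℕ} (p : ℕ) (a : Fin (d + 1) → ℂ) (s : Option (Fin (d + 1) × Bool)) :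
    aeval a (spolZ p s) = sval (p : ℂ) a s := by
  rcases s with _ | ⟨j, _ | _⟩
  · simp [spolZ, sval]
  · simp [spolZ, sval]
  · simp [spolZ, sval]

theorem zg_crt {ι : Type*} [Fintype ι] [DecidableEq ι] (q : ι → ℕ)
    (hq : ∀ x, (q x).Prime) (hq' : Function.Injective q) (K : ℕ) (x : ι) :
    ∃ u : ℤ, (∃ y : ℤ, u = 1 + (q x : ℤ) ^ K * y) ∧ ∀ x', x' ≠ x → ∃ y : ℤ, u = (q x' : ℤ) ^ K * y := by
  set R : ℤ := ∏ x' ∈ Finset.univ.erase x, (q x' : ℤ) ^ K with hR
  have hcop : IsCoprime ((q x : ℤ) ^ K) R := by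
    rw [hR]
    refine IsCoprime.prod_right ?_
    intro x' hx'
    refine IsCoprime.pow ?_
    rw [Nat.isCoprime_iff_coprime]
    rw [Nat.coprime_primes (hq x) (hq x')]
    intro h
    exact (Finset.ne_of_mem_erase hx') (hq' h).symm
  obtain ⟨a, b, hab⟩ := hcop
  refine ⟨b * R, ⟨-a, by linear_combination hab⟩, ?_⟩
  intro x' hx'
  have h1 : (q x' : ℤ) ^ K ∣ R := Finset.dvd_prod_of_mem _ (Finset.mem_erase.2 ⟨hx', Finset.mem_univ _⟩)
  obtain ⟨y, hy⟩ := h1
  exact ⟨b * y, by rw [hy]; ring⟩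

/-- The Chinese remainder theorem for a finite family of patterns. -/
theorem combine {d n : ℕ} {ι : Type*} [Fintype ι] [DecidableEq ι] (q : ι → ℕ)
    (hq : ∀ x, (q x).Prime) (hq' : Function.Injective q) (K : ℕ)
    (e : Fin n → ℕ) (S : ι → Fin n → Option (Fin (d + 1) × Bool)) :
    ∃ P : Fin n → MvPolynomial (Fin (d + 1)) ℤ, (∀ i, (P i).IsHomogeneous (e i)) ∧
      ∀ x i, ∃ Y : MvPolynomial (Fin (d + 1)) ℤ,
        P i = spolZ (q x) (S x i) ^ e i + (q x : MvPolynomial (Fin (d + 1)) ℤ) ^ K * Y := by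
  choose u hu1 hu2 using zg_crt q hq hq' K
  refine ⟨fun i => ∑ x, (u x : MvPolynomial (Fin (d + 1)) ℤ) * spolZ (q x) (S x i) ^ e i,
    ?_, ?_⟩
  · intro i
    refine IsHomogeneous.sum _ _ _ ?_
    intro x _
    have h1 : (u x : MvPolynomial (Fin (d + 1)) ℤ) = C (u x : ℤ) := by simp
    rw [h1]
    have h2 := (isHomogeneous_C (Fin (d + 1)) (u x : ℤ)).mul
      ((spolZ_homog (q x) (S x i)).pow (e i))
    simpa using h2
  · intro x i
    have h1 : ∀ x', ∃ Y : MvPolynomial (Fin (d + 1)) ℤ,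
        (u x' : MvPolynomial (Fin (d + 1)) ℤ) * spolZ (q x') (S x' i) ^ e i =
          (if x' = x then spolZ (q x) (S x i) ^ e i else 0) +
            (q x : MvPolynomial (Fin (d + 1)) ℤ) ^ K * Y := by
      intro x'
      by_cases hx : x' = x
      · subst hx
        obtain ⟨y, hy⟩ := hu1 x'
        refine ⟨(y : MvPolynomial (Fin (d + 1)) ℤ) * spolZ (q x') (S x' i) ^ e i, ?_⟩
        rw [if_pos rfl, hy]
        push_cast
        ring
      · obtain ⟨y, hy⟩ := hu2 x' x (fun h => hx h.symm)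
        refine ⟨(y : MvPolynomial (Fin (d + 1)) ℤ) * spolZ (q x') (S x' i) ^ e i, ?_⟩
        rw [if_neg hx, hy]
        push_cast
        ring
    choose Y hY using h1
    refine ⟨∑ x', Y x', ?_⟩
    show ∑ x', (u x' : MvPolynomial (Fin (d + 1)) ℤ) * spolZ (q x') (S x' i) ^ e i = _
    rw [Finset.sum_congr rfl (fun x' _ => hY x'), Finset.sum_add_distrib, Finset.mul_sum]
    simp

/-- Injective families of large primes. -/
theorem exists_primes {ι : Type*} [Fintype ι] (B : ℕ) :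
    ∃ q : ι → ℕ, Function.Injective q ∧ ∀ x, (q x).Prime ∧ B < q x := by
  have hinf : {p : ℕ | p.Prime ∧ B < p}.Infinite := by
    rw [Set.infinite_iff_exists_gt]
    intro a
    obtain ⟨p, hp, hp'⟩ := Nat.exists_infinite_primes (max a B + 1)
    exact ⟨p, ⟨hp', by omega⟩, by omega⟩
  have := hinf.to_subtype
  obtain ⟨g⟩ : Nonempty (ι ↪ {p : ℕ | p.Prime ∧ B < p}) := by
    exact ⟨(Fintype.equivFin ι).toEmbedding.trans (Fin.valEmbedding.trans
      (Infinite.natEmbedding _))⟩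
  exact ⟨fun x => (g x : ℕ), fun x y h => g.injective (Subtype.ext h), fun x => (g x).2⟩

/-- Composition of evaluations. -/
theorem aeval_aeval {B : Subring ℂ} {m d : ℕ} (L : Fin (d + 1) → MvPolynomial (Fin (m + 1)) B)
    (P : MvPolynomial (Fin (d + 1)) ℤ) (z : Fin (m + 1) → ℂ) :
    aeval z (aeval L P) = aeval (fun l => aeval z (L l)) P := by
  induction P using MvPolynomial.induction_on with
  | C a => simp
  | add p q hp hq => rw [map_add, map_add, hp, hq, map_add]
  | mul_X p i hp => rw [map_mul, map_mul, hp, aeval_X, map_mul, aeval_X]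

end ZP38
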