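import Mathlib
import Pool.Agent.LibZP38.Defs

/-! The Nullstellensatz over the fraction field of a subring of `ℂ`, denominators cleared. -/

namespace ZP38

open MvPolynomial

/-- The fraction field. -/
noncomputable def zg_K (B : Subring ℂ) : Subfield ℂ := Subfield.closure (B : Set ℂ)

theorem zg_mem (B : Subring ℂ) (x : B) : (x : ℂ) ∈ zg_K B := Subfield.subset_closure x.2

/-- The inclusion of the ring in its fraction field. -/
noncomputable def zg_i (B : Subring ℂ) : B →+* zg_K B where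
  toFun x := ⟨x, zg_mem B x⟩
  map_one' := rfl
  map_mul' _ _ := rfl
  map_zero' := rfl
  map_add' _ _ := rfl

theorem zg_aeval_map {B : Subring ℂ} {m : ℕ} (p : MvPolynomial (Fin m) B) (z : Fin m → ℂ) :
    aeval z (map (zg_i B) p) = aeval z p := by
  induction p using MvPolynomial.induction_on with
  | C a =>
    rw [map_C, aeval_C, aeval_C]
    rfl
  | add p q hp hq => rw [map_add, map_add, hp, hq, map_add]
  | mul_X p i hp => rw [map_mul, map_X, map_mul, hp, aeval_X, map_mul, aeval_X]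

theorem zg_const {B : Subring ℂ} (a : zg_K B) :
    ∃ c : B, c ≠ 0 ∧ ∃ b : B, (b : ℂ) = c * (a : ℂ) := by
  have h : (a : ℂ) ∈ Subfield.closure (B : Set ℂ) := a.2
  rw [Subfield.mem_closure_iff] at h
  obtain ⟨y, hy, w, hw, hyw⟩ := h
  rw [Subring.closure_eq] at hy hw
  by_cases h0 : w = 0
  · refine ⟨1, one_ne_zero, 0, ?_⟩
    rw [← hyw, h0]
    simp
  · refine ⟨⟨w, hw⟩, ?_, ⟨y, hy⟩, ?_⟩
    · intro h1
      exact h0 (congrArg Subtype.val h1)
    · show y = w * (a : ℂ)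
      rw [← hyw]
      field_simp

theorem zg_lift {B : Subring ℂ} {m : ℕ} (h : MvPolynomial (Fin m) (zg_K B)) :
    ∃ c : B, c ≠ 0 ∧ ∀ c' : B, c ∣ c' → ∃ H : MvPolynomial (Fin m) B,
      ∀ z : Fin m → ℂ, aeval z H = (c' : ℂ) * aeval z h := by
  induction h using MvPolynomial.induction_on with
  | C a =>
    obtain ⟨c, hc, b, hb⟩ := zg_const a
    refine ⟨c, hc, ?_⟩
    rintro _ ⟨e, rfl⟩
    refine ⟨C (e * b), fun z => ?_⟩
    rw [aeval_C, aeval_C]
    have h1 : algebraMap B ℂ (e * b) = (e : ℂ) * (b : ℂ) := by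
      rw [map_mul]; rfl
    have h2 : algebraMap (zg_K B) ℂ a = (a : ℂ) := rfl
    rw [h1, h2, hb]
    push_cast
    ring
  | add p q hp hq =>
    obtain ⟨c1, hc1, h1⟩ := hp
    obtain ⟨c2, hc2, h2⟩ := hq
    refine ⟨c1 * c2, mul_ne_zero hc1 hc2, fun c' hc' => ?_⟩
    obtain ⟨H1, hH1⟩ := h1 c' ((Dvd.intro _ rfl).trans hc')
    obtain ⟨H2, hH2⟩ := h2 c' ((Dvd.intro_left _ rfl).trans hc')
    exact ⟨H1 + H2, fun z => by rw [map_add, map_add, hH1, hH2, mul_add]⟩
  | mul_X p i hp =>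
    obtain ⟨c1, hc1, h1⟩ := hp
    refine ⟨c1, hc1, fun c' hc' => ?_⟩
    obtain ⟨H1, hH1⟩ := h1 c' hc'
    exact ⟨H1 * X i, fun z => by rw [map_mul, map_mul, hH1, aeval_X, aeval_X, mul_assoc]⟩

theorem zg_one {B : Subring ℂ} {m d r : ℕ} (f : Fin r → MvPolynomial (Fin (m + 1)) B)
    (L : Fin (d + 1) → MvPolynomial (Fin (m + 1)) B)
    (h : ∀ z : Fin (m + 1) → ℂ, OnX f z → (∀ l, aeval z (L l) = 0) → z = 0) (k : Fin (m + 1)) :
    ∃ (s : ℕ) (g : Fin (d + 1) → MvPolynomial (Fin (m + 1)) (zg_K B)),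
      ∀ z : Fin (m + 1) → ℂ, OnX f z → z k ^ s = ∑ l, aeval z (L l) * aeval z (g l) := by
  set I : Ideal (MvPolynomial (Fin (m + 1)) (zg_K B)) :=
    Ideal.span (Set.range fun i => map (zg_i B) (f i)) ⊔
      Ideal.span (Set.range fun l => map (zg_i B) (L l)) with hI
  have hX : (X k : MvPolynomial (Fin (m + 1)) (zg_K B)) ∈
      vanishingIdeal (zg_K B) (zeroLocus ℂ I) := by
    rw [mem_vanishingIdeal_iff]
    intro z hz
    rw [mem_zeroLocus_iff] at hz
    have h0 : z = 0 := by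
      apply h z
      · intro i
        rw [← zg_aeval_map]
        exact hz _ (Ideal.mem_sup_left (Ideal.subset_span ⟨i, rfl⟩))
      · intro l
        rw [← zg_aeval_map]
        exact hz _ (Ideal.mem_sup_right (Ideal.subset_span ⟨l, rfl⟩))
    rw [aeval_X, h0]; rfl
  rw [vanishingIdeal_zeroLocus_eq_radical] at hX
  obtain ⟨s, hs⟩ := hX
  obtain ⟨u, hu, v, hv, huv⟩ := Submodule.mem_sup.1 hs
  obtain ⟨a, rfl⟩ := Ideal.mem_span_range_iff_exists_fun.1 hu
  obtain ⟨g, rfl⟩ := Ideal.mem_span_range_iff_exists_fun.1 hv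
  refine ⟨s, g, fun z hz => ?_⟩
  have := congrArg (aeval z) huv
  rw [map_add, map_sum, map_sum, map_pow, aeval_X] at this
  rw [← this]
  have h1 : ∑ i, aeval z (a i * map (zg_i B) (f i)) = 0 := by
    apply Finset.sum_eq_zero
    intro i _
    rw [map_mul, zg_aeval_map, hz i, mul_zero]
  rw [h1, zero_add]
  apply Finset.sum_congr rfl
  intro l _
  rw [map_mul, zg_aeval_map, mul_comm]

theorem null_rel {B : Subring ℂ} {m d r : ℕ} (f : Fin r → MvPolynomial (Fin (m + 1)) B)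
    (L : Fin (d + 1) → MvPolynomial (Fin (m + 1)) B)
    (h : ∀ z : Fin (m + 1) → ℂ, OnX f z → (∀ l, aeval z (L l) = 0) → z = 0) :
    ∃ c : B, c ≠ 0 ∧ ∀ k : Fin (m + 1), ∃ (s : ℕ) (H : Fin (d + 1) → MvPolynomial (Fin (m + 1)) B),
      ∀ z : Fin (m + 1) → ℂ, OnX f z → (c : ℂ) * z k ^ s = ∑ l, aeval z (L l) * aeval z (H l) := by
  choose s g hg using zg_one f L h
  choose c hc hl using fun (k : Fin (m + 1)) (l : Fin (d + 1)) => zg_lift (g k l)
  refine ⟨∏ k, ∏ l, c k l, Finset.prod_ne_zero_iff.2 fun k _ =>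
    Finset.prod_ne_zero_iff.2 fun l _ => hc k l, fun k => ⟨s k, ?_⟩⟩
  have hdvd : ∀ l, c k l ∣ ∏ k, ∏ l, c k l := fun l =>
    (Finset.dvd_prod_of_mem _ (Finset.mem_univ l)).trans
      (Finset.dvd_prod_of_mem (fun k => ∏ l, c k l) (Finset.mem_univ k))
  choose H hH using fun l => hl k l _ (hdvd l)
  refine ⟨H, fun z hz => ?_⟩
  rw [hg k z hz, Finset.mul_sum]
  apply Finset.sum_congr rfl
  intro l _
  rw [hH l z]
  ring

end ZP38
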