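import Mathlib
import Pool.Agent.LibZP38.T5

/-! TASK ZP6: colours at a valuation ring of `ℂ`. -/

namespace ZP38

open UpperHalfPlane

theorem isog_symm {τ τ' : ℍ} (h : Isog τ τ') : Isog τ' τ := by
  obtain ⟨a, b, c, d, hd, he⟩ := h
  refine ⟨d, -b, -c, a, by nlinarith, ?_⟩
  push_cast
  linear_combination -he

theorem isog_refl (τ : ℍ) : Isog τ τ :=
  ⟨1, 0, 0, 1, by norm_num, by push_cast; ring⟩

/-- Elements integral over a valuation ring belong to it. -/
theorem zp6_mem_of_isIntegral (V : ValuationSubring ℂ) (x : ℂ) (hx : IsIntegral V x) : x ∈ V := by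
  obtain ⟨y, hy⟩ := IsIntegrallyClosed.isIntegral_iff.mp hx
  rw [← hy]
  exact y.2

/-- Algebraic integers lie in every valuation ring. -/
theorem oalg_mem (V : ValuationSubring ℂ) (x : ℂ) (hx : IsIntegral ℤ x) : x ∈ V :=
  zp6_mem_of_isIntegral V x hx.tower_top

/-- The algebraic integers as a subring of a valuation ring. -/
theorem zp6_aeval_mem (V : ValuationSubring ℂ) {x : ℂ} (hx : x ∈ V) (q : Polynomial Oalg) :
    Polynomial.aeval x q ∈ V := by
  rw [Polynomial.aeval_eq_sum_range]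
  refine V.toSubring.sum_mem fun i _ => ?_
  rw [Algebra.smul_def]
  exact V.mul_mem _ _ (oalg_mem V _ (q.coeff i).2) (pow_mem hx i)

theorem zp6_colour (V : ValuationSubring ℂ) {τ τ' : ℍ} (h : Isog τ τ') (hτ : jfun τ ∈ V) :
    jfun τ' ∈ V := by
  obtain ⟨P, hP, hev⟩ := isog_integral h
  refine zp6_mem_of_isIntegral V _ ?_
  -- the coefficients of `P` at `jfun τ` give a ring homomorphism to `V`
  let φ : Polynomial Oalg →+* V :=
    { toFun := fun q => ⟨Polynomial.aeval (jfun τ) q, zp6_aeval_mem V hτ q⟩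
      map_one' := by ext; simp
      map_mul' := fun a b => by ext; simp
      map_zero' := by ext; simp
      map_add' := fun a b => by ext; simp }
  refine ⟨P.map φ, hP.map φ, ?_⟩
  rw [Polynomial.eval₂_map]
  exact hev

theorem colour_isog (V : ValuationSubring ℂ) {τ τ' : ℍ} (h : Isog τ τ') :
    jfun τ ∈ V ↔ jfun τ' ∈ V :=
  ⟨zp6_colour V h, zp6_colour V (isog_symm h)⟩

theorem colour_cm (V : ValuationSubring ℂ) {τ : ℍ} (h : IsCM τ) : jfun τ ∈ V :=
  oalg_mem V _ (cm_integral h)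

/-- A valuation ring of `ℂ` above `p`. -/
theorem exists_val (p : ℕ) (hp : p.Prime) : ∃ V : ValuationSubring ℂ, V.valuation (p : ℂ) < 1 := by
  let A : Subring ℂ := (Int.castRingHom ℂ).range
  let pA : A := ⟨(p : ℂ), ⟨(p : ℤ), by simp⟩⟩
  have hI : Ideal.span {pA} ≠ ⊤ := by
    intro htop
    rw [Ideal.span_singleton_eq_top] at htop
    obtain ⟨⟨y, n, hn⟩, hy⟩ := htop.exists_right_inv
    have h1 : (p : ℂ) * y = 1 := congrArg Subtype.val hy
    rw [← hn] at h1
    have h2 : (p : ℤ) * n = 1 := by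
      have h3 : (((p : ℤ) * n : ℤ) : ℂ) = ((1 : ℤ) : ℂ) := by
        push_cast
        simpa using h1
      exact_mod_cast h3
    have h4 : IsUnit (p : ℤ) := IsUnit.of_mul_eq_one n h2
    rw [Int.ofNat_isUnit] at h4
    exact hp.one_lt.ne' (Nat.isUnit_iff.mp h4)
  obtain ⟨V, -, hV⟩ := Ideal.image_subset_nonunits_valuationSubring (Ideal.span {pA}) hI
  refine ⟨V, ?_⟩
  have h1 : (p : ℂ) ∈ V.nonunits := hV ⟨pA, Ideal.mem_span_singleton_self pA, rfl⟩
  exact (ValuationSubring.mem_nonunits_iff (A := V)).mp h1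

theorem val_nat_unit (V : ValuationSubring ℂ) (p c : ℕ) (hp : V.valuation (p : ℂ) < 1)
    (hc : Nat.Coprime p c) : V.valuation (c : ℂ) = 1 := by
  have hle : ∀ n : ℤ, V.valuation (n : ℂ) ≤ 1 := fun n =>
    (ValuationSubring.valuation_le_one_iff V _).mpr (oalg_mem V _ (isIntegral_algebraMap (x := n)))
  have hcle : V.valuation (c : ℂ) ≤ 1 := by exact_mod_cast hle (c : ℤ)
  refine le_antisymm hcle ?_
  by_contra hlt
  push Not at hlt
  have h1 : ((p : ℂ) * (Nat.gcdA p c : ℂ) + (c : ℂ) * (Nat.gcdB p c : ℂ)) = 1 := by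
    have h := Nat.gcd_eq_gcd_ab p c
    rw [hc.gcd_eq_one] at h
    exact_mod_cast h.symm
  have h2 : V.valuation (1 : ℂ) < 1 := by
    rw [← h1]
    refine (V.valuation.map_add _ _).trans_lt (max_lt ?_ ?_)
    · rw [map_mul]
      exact mul_lt_one_of_lt_of_le hp (hle _)
    · rw [map_mul]
      exact mul_lt_one_of_lt_of_le hlt (hle _)
  rw [map_one] at h2
  exact lt_irrefl _ h2

/-- Values of polynomials with integral coefficients. -/
theorem aeval_mem (V : ValuationSubring ℂ) {σ : Type*} (z : σ → ℂ) (hz : ∀ k, z k ∈ V)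
    (f : MvPolynomial σ Oalg) : MvPolynomial.aeval z f ∈ V := by
  induction f using MvPolynomial.induction_on with
  | C a =>
    rw [MvPolynomial.aeval_C]
    exact oalg_mem V _ a.2
  | add p q hp hq =>
    rw [map_add]
    exact V.add_mem _ _ hp hq
  | mul_X p i hp =>
    rw [map_mul, MvPolynomial.aeval_X]
    exact V.mul_mem _ _ hp (hz i)

end ZP38
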