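import Mathlib
import Pool.Agent.LibZP38.T6

/-! Valuation rings of `ℂ` above almost all primes at which a given element is a unit. -/

namespace ZP38

open MvPolynomial

theorem prime_adjoin_aux {ι : Type*} (x : ι → ℂ) (hx : AlgebraicIndependent ℤ x) (p : ℕ)
    (hp : p.Prime) : Prime ((p : ℕ) : Algebra.adjoin ℤ (Set.range x)) := by
  have h3 : Prime (C (p : ℤ) : MvPolynomial ι ℤ) :=
    (prime_C_iff ι).2 (Nat.prime_iff_prime_int.1 hp)
  have h4 : Prime (hx.aevalEquiv (C (p : ℤ))) := (MulEquiv.prime_iff hx.aevalEquiv).2 h3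
  have h6 : (C (p : ℤ) : MvPolynomial ι ℤ) = ((p : ℕ) : MvPolynomial ι ℤ) := by simp
  rw [h6, map_natCast] at h4
  exact h4

theorem prime_adjoin (𝒯 : Set ℂ) (h𝒯 : AlgebraicIndependent ℚ ((↑) : 𝒯 → ℂ)) (p : ℕ)
    (hp : p.Prime) : Prime ((p : ℕ) : Algebra.adjoin ℤ 𝒯) := by
  have h1 : AlgebraicIndependent ℤ ((↑) : 𝒯 → ℂ) := h𝒯.restrictScalars (Int.cast_injective)
  have h2 := prime_adjoin_aux _ h1 p hp
  rwa [Subtype.range_coe] at h2

theorem not_dvd_aux {ι : Type*} (x : ι → ℂ) (hx : AlgebraicIndependent ℤ x)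
    (g : Algebra.adjoin ℤ (Set.range x)) (hg : g ≠ 0) :
    ∃ C₀ : ℕ, ∀ p : ℕ, C₀ < p → ¬ ((p : ℕ) : Algebra.adjoin ℤ (Set.range x)) ∣ g := by
  have hG0 : hx.aevalEquiv.symm g ≠ 0 := by
    intro h
    exact hg ((map_eq_zero_iff _ hx.aevalEquiv.symm.injective).1 h)
  obtain ⟨s, hs⟩ := MvPolynomial.ne_zero_iff.1 hG0
  refine ⟨(coeff s (hx.aevalEquiv.symm g)).natAbs, ?_⟩
  intro p hp hdvd
  have h3 : ((p : ℕ) : MvPolynomial ι ℤ) ∣ hx.aevalEquiv.symm g := by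
    have h4 := map_dvd hx.aevalEquiv.symm hdvd
    rwa [map_natCast] at h4
  have h4 : (C (p : ℤ) : MvPolynomial ι ℤ) ∣ hx.aevalEquiv.symm g := by
    have h6 : (C (p : ℤ) : MvPolynomial ι ℤ) = ((p : ℕ) : MvPolynomial ι ℤ) := by simp
    rw [h6]
    exact h3
  rw [C_dvd_iff_dvd_coeff] at h4
  have h5 := h4 s
  have h6 := Int.natAbs_dvd_natAbs.2 h5
  have h7 := Nat.le_of_dvd (Int.natAbs_pos.2 hs) h6
  simp only [Int.natAbs_natCast] at h7
  omega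

theorem not_dvd_adjoin (𝒯 : Set ℂ) (h𝒯 : AlgebraicIndependent ℚ ((↑) : 𝒯 → ℂ))
    (g : Algebra.adjoin ℤ 𝒯) (hg : g ≠ 0) :
    ∃ C₀ : ℕ, ∀ p : ℕ, C₀ < p → ¬ ((p : ℕ) : Algebra.adjoin ℤ 𝒯) ∣ g := by
  have h1 : AlgebraicIndependent ℤ ((↑) : 𝒯 → ℂ) := h𝒯.restrictScalars (Int.cast_injective)
  have h2 := not_dvd_aux _ h1
  rw [Subtype.range_coe] at h2
  exact h2 g hg

/-- A valuation ring containing `A`, in which `p` is not a unit and `g` is a unit. -/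
theorem exists_V (A : Subring ℂ) (p : ℕ) (g : A) (hg0 : g ≠ 0) (hp : Prime ((p : ℕ) : A))
    (hg : ¬ ((p : ℕ) : A) ∣ g) :
    ∃ V : ValuationSubring ℂ, (∀ a : A, (a : ℂ) ∈ V) ∧ V.valuation (p : ℂ) < 1 ∧
      V.valuation (g : ℂ) = 1 := by
  have hg0' : (g : ℂ) ≠ 0 := fun h => hg0 (Subtype.ext h)
  let R : Subring ℂ :=
    { carrier := {x | ∃ k : ℕ, x * (g : ℂ) ^ k ∈ A}
      mul_mem' := by
        rintro x y ⟨k, hk⟩ ⟨l, hl⟩
        refine ⟨k + l, ?_⟩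
        have : x * y * (g : ℂ) ^ (k + l) = (x * (g : ℂ) ^ k) * (y * (g : ℂ) ^ l) := by ring
        rw [this]
        exact A.mul_mem hk hl
      one_mem' := ⟨0, by simp [A.one_mem]⟩
      add_mem' := by
        rintro x y ⟨k, hk⟩ ⟨l, hl⟩
        refine ⟨k + l, ?_⟩
        have : (x + y) * (g : ℂ) ^ (k + l) = (x * (g : ℂ) ^ k) * (g : ℂ) ^ l +
          (y * (g : ℂ) ^ l) * (g : ℂ) ^ k := by ring
        rw [this]
        exact A.add_mem (A.mul_mem hk (A.pow_mem g.2 _)) (A.mul_mem hl (A.pow_mem g.2 _))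
      zero_mem' := ⟨0, by simp [A.zero_mem]⟩
      neg_mem' := by
        rintro x ⟨k, hk⟩
        refine ⟨k, ?_⟩
        rw [neg_mul]
        exact A.neg_mem hk }
  have hAR : ∀ a : A, (a : ℂ) ∈ R := fun a => ⟨0, by simp⟩
  have hgR : (g : ℂ)⁻¹ ∈ R := ⟨1, by rw [pow_one, inv_mul_cancel₀ hg0']; exact A.one_mem⟩
  let pR : R := ⟨(p : ℂ), ⟨0, by simp⟩⟩
  have hI : Ideal.span {pR} ≠ ⊤ := by
    intro htop
    rw [Ideal.span_singleton_eq_top] at htop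
    obtain ⟨⟨y, k, hk⟩, hy⟩ := htop.exists_right_inv
    have h1 : (p : ℂ) * y = 1 := congrArg Subtype.val hy
    have h2 : ((p : ℕ) : A) ∣ g ^ k := by
      refine ⟨⟨y * (g : ℂ) ^ k, hk⟩, ?_⟩
      apply Subtype.ext
      show ((g ^ k : A) : ℂ) = (((p : ℕ) : A) : ℂ) * (y * (g : ℂ) ^ k)
      push_cast
      rw [← mul_assoc, h1, one_mul]
    exact hg (hp.dvd_of_dvd_pow h2)
  obtain ⟨V, hRV, hV⟩ := Ideal.image_subset_nonunits_valuationSubring (Ideal.span {pR}) hI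
  refine ⟨V, fun a => hRV (hAR a), ?_, ?_⟩
  · have h1 : (p : ℂ) ∈ V.nonunits := hV ⟨pR, Ideal.mem_span_singleton_self pR, rfl⟩
    exact (ValuationSubring.mem_nonunits_iff (A := V)).mp h1
  · have h1 : V.valuation (g : ℂ) ≤ 1 := (V.valuation_le_one_iff _).2 (hRV (hAR g))
    have h2 : V.valuation (g : ℂ)⁻¹ ≤ 1 := (V.valuation_le_one_iff _).2 (hRV hgR)
    refine le_antisymm h1 ?_
    rw [map_inv₀] at h2
    have h3 : V.valuation (g : ℂ) ≠ 0 := (V.valuation).ne_zero_iff.2 hg0'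
    calc (1 : V.ValueGroup) = V.valuation (g : ℂ) * (V.valuation (g : ℂ))⁻¹ :=
          (mul_inv_cancel₀ h3).symm
      _ ≤ V.valuation (g : ℂ) := mul_le_of_le_one_right' h2

theorem star (𝒯 : Set ℂ) (h𝒯 : AlgebraicIndependent ℚ ((↑) : 𝒯 → ℂ)) (c : Bring 𝒯)
    (hc : c ≠ 0) : ∃ C₀ : ℕ, ∀ p : ℕ, p.Prime → C₀ < p → ∃ V : ValuationSubring ℂ,
      (∀ b : Bring 𝒯, (b : ℂ) ∈ V) ∧ V.valuation (p : ℂ) < 1 ∧ V.valuation (c : ℂ) = 1 := by
  -- `c` divides an element of `ℤ[𝒯]`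
  obtain ⟨g, hg0, β, hβ, hcg⟩ : ∃ g : Algebra.adjoin ℤ 𝒯, g ≠ 0 ∧ ∃ β : ℂ,
      IsIntegral (Algebra.adjoin ℤ 𝒯) β ∧ (c : ℂ) * β = (g : ℂ) := by
    have h1 : IsIntegral (Algebra.adjoin ℤ 𝒯) (c : ℂ) := c.2
    have hc' : (c : ℂ) ≠ 0 := fun h => hc (Subtype.ext h)
    have h2 : IsAlgebraic (Algebra.adjoin ℤ 𝒯) ((c : ℂ)⁻¹) := h1.isAlgebraic.inv
    obtain ⟨y, hy, hy'⟩ := h2.exists_integral_multiple
    refine ⟨y, hy, _, hy', ?_⟩
    rw [Algebra.smul_def]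
    have h3 : algebraMap (Algebra.adjoin ℤ 𝒯) ℂ y = (y : ℂ) := rfl
    rw [h3]
    field_simp
  obtain ⟨C₀, hC₀⟩ := not_dvd_adjoin 𝒯 h𝒯 g hg0
  refine ⟨C₀, ?_⟩
  intro p hp hpC
  obtain ⟨V, hAV, hpV, hgV⟩ := exists_V (Algebra.adjoin ℤ 𝒯).toSubring p g hg0
    (prime_adjoin 𝒯 h𝒯 p hp) (hC₀ p hpC)
  have hint : ∀ x : ℂ, IsIntegral (Algebra.adjoin ℤ 𝒯) x → x ∈ V := by
    intro x hx
    refine zp6_mem_of_isIntegral V x ?_
    obtain ⟨P, hP, hev⟩ := hx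
    let φ : Algebra.adjoin ℤ 𝒯 →+* V :=
      { toFun := fun a => ⟨(a : ℂ), hAV a⟩
        map_one' := rfl
        map_mul' := fun _ _ => rfl
        map_zero' := rfl
        map_add' := fun _ _ => rfl }
    refine ⟨P.map φ, hP.map φ, ?_⟩
    rw [Polynomial.eval₂_map]
    exact hev
  refine ⟨V, fun b => hint _ b.2, hpV, ?_⟩
  have h1 : V.valuation (c : ℂ) ≤ 1 := (V.valuation_le_one_iff _).2 (hint _ c.2)
  have h2 : V.valuation β ≤ 1 := (V.valuation_le_one_iff _).2 (hint _ hβ)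
  refine le_antisymm h1 ?_
  calc (1 : V.ValueGroup) = V.valuation (g : ℂ) := hgV.symm
    _ = V.valuation (c : ℂ) * V.valuation β := by rw [← hcg, map_mul]
    _ ≤ V.valuation (c : ℂ) := mul_le_of_le_one_right' h2

/-- Values of polynomials with coefficients in a subring of the valuation ring. -/
theorem aeval_memB (V : ValuationSubring ℂ) {B : Subring ℂ} (hB : ∀ b : B, (b : ℂ) ∈ V)
    {σ : Type*} (z : σ → ℂ) (hz : ∀ k, z k ∈ V) (f : MvPolynomial σ B) :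
    MvPolynomial.aeval z f ∈ V := by
  induction f using MvPolynomial.induction_on with
  | C a =>
    rw [MvPolynomial.aeval_C]
    exact hB a
  | add p q hp hq =>
    rw [map_add]
    exact V.add_mem _ _ hp hq
  | mul_X p i hp =>
    rw [map_mul, MvPolynomial.aeval_X]
    exact V.mul_mem _ _ hp (hz i)

theorem aeval_memZ (V : ValuationSubring ℂ) {σ : Type*} (z : σ → ℂ) (hz : ∀ k, z k ∈ V)
    (f : MvPolynomial σ ℤ) : MvPolynomial.aeval z f ∈ V := by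
  induction f using MvPolynomial.induction_on with
  | C a =>
    rw [MvPolynomial.aeval_C]
    exact intCast_mem V a
  | add p q hp hq =>
    rw [map_add]
    exact V.add_mem _ _ hp hq
  | mul_X p i hp =>
    rw [map_mul, MvPolynomial.aeval_X]
    exact V.mul_mem _ _ hp (hz i)

theorem aeval_B {B : Subring ℂ} {σ : Type*} (z : σ → ℂ) (hz : ∀ k, z k ∈ B)
    (f : MvPolynomial σ B) : MvPolynomial.aeval z f ∈ B := by
  induction f using MvPolynomial.induction_on with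
  | C a =>
    rw [MvPolynomial.aeval_C]
    exact a.2
  | add p q hp hq =>
    rw [map_add]
    exact B.add_mem hp hq
  | mul_X p i hp =>
    rw [map_mul, MvPolynomial.aeval_X]
    exact B.mul_mem hp (hz i)

end ZP38
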