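import Mathlib
import Pool.Agent.LibZP38.Defs

/-! TASK ZP8: a point of defect larger than `d` carries a star forest with `d + 1` edges. -/

namespace ZP38

open UpperHalfPlane

/-- The relation expressed by an edge. -/
def Edge {n : ℕ} (τ : Fin n → ℍ) (i : Fin n) : Option (Fin n) → Prop
  | none => IsCM (τ i)
  | some c => Isog (τ c) (τ i)

theorem zp8_refl (τ : ℍ) : Isog τ τ := by
  refine ⟨1, 0, 0, 1, by norm_num, ?_⟩
  push_cast
  ring

theorem exists_forest {n d : ℕ} (τ : Fin n → ℍ) (h : specialDim τ + d < n) :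
    ∃ (b : Fin (d + 1) → Fin n) (π : Fin (d + 1) → Option (Fin n)), Function.Injective b ∧
      (∀ j k, π j ≠ some (b k)) ∧ ∀ j, Edge τ (b j) (π j) := by
  classical
  -- the classes
  set cl : Fin n → Set (Fin n) := fun i => {k | Isog (τ i) (τ k)} with hcl
  set 𝒞 : Set (Set (Fin n)) := {S : Set (Fin n) | ∃ i, ¬ IsCM (τ i) ∧ S = cl i} with h𝒞
  have hdim : specialDim τ = 𝒞.ncard := rfl
  -- representatives
  have hrep : ∀ S : Set (Fin n), ∃ i : Fin n, S ∈ 𝒞 → (¬ IsCM (τ i) ∧ S = cl i) := by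
    intro S
    by_cases hS : S ∈ 𝒞
    · obtain ⟨i, hi⟩ := hS
      exact ⟨i, fun _ => hi⟩
    · exact ⟨⟨0, by omega⟩, fun h => absurd h hS⟩
  choose rep hrep using hrep
  -- non representatives
  set B : Finset (Fin n) := Finset.univ.filter (fun i => IsCM (τ i) ∨ rep (cl i) ≠ i) with hB
  have hcard : d + 1 ≤ B.card := by
    have h1 : (Finset.univ \ B).card ≤ 𝒞.ncard := by
      have hfin : 𝒞.Finite := Set.toFinite _
      rw [Set.ncard_eq_toFinset_card 𝒞 hfin]
      refine Finset.card_le_card_of_injOn cl ?_ ?_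
      · intro i hi
        rw [Finset.mem_coe, Finset.mem_sdiff, hB, Finset.mem_filter] at hi
        have h2 : ¬ (IsCM (τ i) ∨ rep (cl i) ≠ i) := fun h => hi.2 ⟨Finset.mem_univ _, h⟩
        push Not at h2
        rw [Finset.mem_coe, Set.Finite.mem_toFinset]
        exact ⟨i, h2.1, rfl⟩
      · intro i hi k hk hik
        rw [Finset.mem_coe, Finset.mem_sdiff, hB, Finset.mem_filter] at hi hk
        have h2 : ¬ (IsCM (τ i) ∨ rep (cl i) ≠ i) := fun h => hi.2 ⟨Finset.mem_univ _, h⟩
        have h3 : ¬ (IsCM (τ k) ∨ rep (cl k) ≠ k) := fun h => hk.2 ⟨Finset.mem_univ _, h⟩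
        push Not at h2 h3
        rw [← h2.2, ← h3.2, hik]
    have h2 : (Finset.univ \ B).card + B.card = n := by
      rw [Finset.card_sdiff_add_card_eq_card (Finset.subset_univ B), Finset.card_univ,
        Fintype.card_fin]
    omega
  obtain ⟨B', hB', hB'card⟩ := Finset.exists_subset_card_eq hcard
  let b := B'.orderEmbOfFin hB'card
  have hbB : ∀ j, IsCM (τ (b j)) ∨ rep (cl (b j)) ≠ b j := by
    intro j
    have h1 : b j ∈ B' := Finset.orderEmbOfFin_mem B' hB'card j
    have h2 := hB' h1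
    rw [hB, Finset.mem_filter] at h2
    exact h2.2
  refine ⟨b, fun j => if IsCM (τ (b j)) then none else some (rep (cl (b j))),
    b.injective, ?_, ?_⟩
  · intro j k hjk
    dsimp only at hjk
    split_ifs at hjk with hj
    have hjk' : rep (cl (b j)) = b k := by simpa using hjk
    have hmem : cl (b j) ∈ 𝒞 := ⟨b j, hj, rfl⟩
    have h1 := hrep _ hmem
    rw [hjk'] at h1
    rcases hbB k with h2 | h2
    · exact h1.1 h2
    · apply h2
      rw [← h1.2]
      exact hjk'
  · intro j
    dsimp only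
    by_cases hj : IsCM (τ (b j))
    · rw [if_pos hj]
      exact hj
    · rw [if_neg hj]
      have hmem : cl (b j) ∈ 𝒞 := ⟨b j, hj, rfl⟩
      have h1 := hrep _ hmem
      show Isog (τ (rep (cl (b j)))) (τ (b j))
      have h2 : b j ∈ cl (b j) := zp8_refl _
      rw [h1.2] at h2
      exact h2

end ZP38
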