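import Mathlib
import Pool.Agent.LibZP38.Defs

/-! TASK ZP9: patterns excluding a given star forest. -/

namespace ZP38

/-- Equality of colours along an edge. -/
def ColEdge {n : ℕ} (V : ValuationSubring ℂ) (N D : Fin n → ℂ) (i : Fin n) :
    Option (Fin n) → Prop
  | none => N i / D i ∈ V
  | some c => (N i / D i ∈ V ↔ N c / D c ∈ V)

theorem zp9_div (V : ValuationSubring ℂ) {x y : ℂ} (hy : y ≠ 0) :
    x / y ∈ V ↔ V.valuation x ≤ V.valuation y := by
  rw [← V.valuation_le_one_iff, map_div₀, div_le_one₀]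
  exact zero_lt_iff.2 ((V.valuation).ne_zero_iff.2 hy)

/-- The next index of the same star. -/
noncomputable def zp9_nxt {n d : ℕ} (π : Fin (d + 1) → Option (Fin n)) (j : Fin (d + 1)) :
    Option (Fin (d + 1)) :=
  open Classical in
  if h : (Finset.univ.filter (fun j' => j < j' ∧ π j' = π j)).Nonempty then
    some ((Finset.univ.filter (fun j' => j < j' ∧ π j' = π j)).min' h)
  else none

theorem zp9_nxt_spec {n d : ℕ} (π : Fin (d + 1) → Option (Fin n)) (j m : Fin (d + 1))
    (hjm : j < m) (hm : π m = π j) :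
    ∃ j', zp9_nxt π j = some j' ∧ j < j' ∧ j' ≤ m ∧ π j' = π j := by
  classical
  have hmem : m ∈ Finset.univ.filter (fun j' => j < j' ∧ π j' = π j) := by
    simp [hjm, hm]
  have hne : (Finset.univ.filter (fun j' => j < j' ∧ π j' = π j)).Nonempty := ⟨m, hmem⟩
  refine ⟨(Finset.univ.filter (fun j' => j < j' ∧ π j' = π j)).min' hne, ?_, ?_, ?_, ?_⟩
  · unfold zp9_nxt
    rw [dif_pos]
  · have := Finset.min'_mem _ hne
    rw [Finset.mem_filter] at this
    exact this.2.1
  · exact Finset.min'_le _ _ hmem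
  · have := Finset.min'_mem _ hne
    rw [Finset.mem_filter] at this
    exact this.2.2

/-- The first index of the star of `c`. -/
theorem zp9_first {n d : ℕ} (π : Fin (d + 1) → Option (Fin n)) (c : Fin n)
    (h : ∃ j, π j = some c) : ∃ j₁, π j₁ = some c ∧ ∀ j, π j = some c → j₁ ≤ j := by
  classical
  obtain ⟨j, hj⟩ := h
  have hne : (Finset.univ.filter (fun j' => π j' = some c)).Nonempty := ⟨j, by simp [hj]⟩
  refine ⟨(Finset.univ.filter (fun j' => π j' = some c)).min' hne, ?_, ?_⟩
  · have := Finset.min'_mem _ hne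
    rw [Finset.mem_filter] at this
    exact this.2
  · intro j hj
    exact Finset.min'_le _ _ (by simp [hj])

theorem zp9_symbols (n d : ℕ) (b : Fin (d + 1) → Fin n) (hb : Function.Injective b)
    (π : Fin (d + 1) → Option (Fin n)) (hπ : ∀ j k, π j ≠ some (b k)) :
    ∃ σN σD : Fin n → Option (Fin (d + 1) × Bool),
      (∀ j, σN (b j) = some (j, false) ∧ σD (b j) = (zp9_nxt π j).map (fun x => (x, true))) ∧
      ∀ c j, π j = some c → ∃ j₁, π j₁ = some c ∧ (∀ j, π j = some c → j₁ ≤ j) ∧
        σN c = (zp9_nxt π j₁).map (fun x => (x, true)) ∧ σD c = some (j₁, false) := by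
  classical
  have h : ∀ i : Fin n, ∃ s t : Option (Fin (d + 1) × Bool),
      (∀ j, b j = i → s = some (j, false) ∧ t = (zp9_nxt π j).map (fun x => (x, true))) ∧
      ∀ j, π j = some i → ∃ j₁, π j₁ = some i ∧ (∀ j, π j = some i → j₁ ≤ j) ∧
        s = (zp9_nxt π j₁).map (fun x => (x, true)) ∧ t = some (j₁, false) := by
    intro i
    by_cases h1 : ∃ j, b j = i
    · obtain ⟨j, hj⟩ := h1
      refine ⟨some (j, false), (zp9_nxt π j).map (fun x => (x, true)), ?_, ?_⟩
      · intro j' hj'
        have : j' = j := hb (hj'.trans hj.symm)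
        subst this
        exact ⟨rfl, rfl⟩
      · intro j' hj'
        exact absurd (hj ▸ hj') (hπ j' j)
    · by_cases h2 : ∃ j, π j = some i
      · obtain ⟨j₁, hj₁, hmin⟩ := zp9_first π i h2
        refine ⟨(zp9_nxt π j₁).map (fun x => (x, true)), some (j₁, false), ?_, ?_⟩
        · intro j hj
          exact absurd ⟨j, hj⟩ h1
        · intro j hj
          exact ⟨j₁, hj₁, hmin, rfl, rfl⟩
      · refine ⟨none, none, ?_, ?_⟩
        · intro j hj
          exact absurd ⟨j, hj⟩ h1
        · intro j hj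
          exact absurd ⟨j, hj⟩ h2
  choose σN σD h1 h2 using h
  exact ⟨σN, σD, fun j => h1 (b j) j rfl, fun c j hj => h2 c j hj⟩

theorem pattern_exists (n d : ℕ) (b : Fin (d + 1) → Fin n) (hb : Function.Injective b)
    (π : Fin (d + 1) → Option (Fin n)) (hπ : ∀ j k, π j ≠ some (b k)) :
    ∃ σN σD : Fin n → Option (Fin (d + 1) × Bool),
      ∀ (V : ValuationSubring ℂ) (p : ℂ) (e : Fin n → ℕ) (K : ℕ) (a : Fin (d + 1) → ℂ)
        (N D : Fin n → ℂ), V.valuation p < 1 → p ≠ 0 → (∀ i, 0 < e i) →
        (∀ i, (d + 2) * e i < K) → (∀ j, a j ∈ V) → (∃ j, V.valuation (a j) = 1) →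
        (∀ i, ∃ y ∈ V, N i = sval p a (σN i) ^ e i + p ^ K * y) →
        (∀ i, ∃ y ∈ V, D i = sval p a (σD i) ^ e i + p ^ K * y) →
        (∀ i, D i ≠ 0) → ¬ ∀ j, ColEdge V N D (b j) (π j) := by
  obtain ⟨σN, σD, hleaf, hcen⟩ := zp9_symbols n d b hb π hπ
  refine ⟨σN, σD, ?_⟩
  intro V p e K a N D hp hp0 he hK ha ⟨m, hm⟩ hN hD hD0 hcol
  -- the valuation
  have hq0 : 0 < V.valuation p := zero_lt_iff.2 ((V.valuation).ne_zero_iff.2 hp0)
  have ha' : ∀ j, V.valuation (a j) ≤ 1 := fun j => (V.valuation_le_one_iff _).2 (ha j)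
  set T : Fin (d + 1) → ℂ := fun j => sval p a ((zp9_nxt π j).map (fun x => (x, true))) with hT
  have hTq : ∀ j, V.valuation (T j) ≤ V.valuation p := by
    intro j
    show V.valuation (sval p a ((zp9_nxt π j).map (fun x => (x, true)))) ≤ _
    rcases zp9_nxt π j with _ | x
    · simp [sval]
    · simp only [Option.map_some, sval, map_mul]
      exact mul_le_of_le_one_right' (ha' x)
  have hTs : ∀ j x, zp9_nxt π j = some x → T j = p * a x := by
    intro j x hx
    show sval p a ((zp9_nxt π j).map (fun x => (x, true))) = _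
    rw [hx]
    rfl
  -- perturbations
  have hpert : ∀ y ∈ V, V.valuation (p ^ K * y) ≤ V.valuation p ^ K := by
    intro y hy
    rw [map_mul, map_pow]
    exact mul_le_of_le_one_right' ((V.valuation_le_one_iff _).2 hy)
  have hub : ∀ x y, y ∈ V → V.valuation (x + p ^ K * y) ≤ max (V.valuation x)
      (V.valuation p ^ K) := by
    intro x y hy
    refine (V.valuation.map_add _ _).trans ?_
    exact max_le_max le_rfl (hpert y hy)
  have heq : ∀ x y, y ∈ V → V.valuation p ^ K < V.valuation x →
      V.valuation (x + p ^ K * y) = V.valuation x := by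
    intro x y hy hx
    exact V.valuation.map_add_eq_of_lt_left ((hpert y hy).trans_lt hx)
  have hpow : ∀ s t : ℕ, s < t → V.valuation p ^ t < V.valuation p ^ s := by
    intro s t hst
    exact pow_lt_pow_right_of_lt_one₀ hq0 hp hst
  have hK1 : ∀ i, ∀ s : ℕ, s ≤ d + 1 → V.valuation p ^ K < (V.valuation p ^ s) ^ e i := by
    intro i s hs
    rw [← pow_mul]
    apply hpow
    have h1 := hK i
    have h2 : s * e i ≤ (d + 1) * e i := Nat.mul_le_mul_right _ hs
    have h3 : (d + 1) * e i ≤ (d + 2) * e i := Nat.mul_le_mul_right _ (by omega)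
    omega
  -- the leaf of `m` is not integral
  have hA : ¬ N (b m) / D (b m) ∈ V := by
    rw [zp9_div V (hD0 _), not_le]
    obtain ⟨y, hy, hNy⟩ := hN (b m)
    obtain ⟨y', hy', hDy⟩ := hD (b m)
    rw [hNy, hDy, (hleaf m).1, (hleaf m).2]
    have e1 : V.valuation ((sval p a (some (m, false))) ^ e (b m)) = 1 := by
      simp only [sval, map_pow, hm, one_pow]
    have e2 : V.valuation (sval p a (some (m, false)) ^ e (b m) + p ^ K * y) = 1 := by
      rw [heq _ _ hy, e1]
      rw [e1]
      have := hK1 (b m) 0 (by omega)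
      simpa using this
    rw [e2]
    refine (hub _ _ hy').trans_lt (max_lt ?_ ?_)
    · rw [map_pow]
      exact pow_lt_one₀ zero_le ((hTq m).trans_lt hp) (he _).ne'
    · have := hK1 (b m) 0 (by omega)
      simpa using this
  -- so the centre is not `none`
  have hcm := hcol m
  rcases hpm : π m with _ | c
  · rw [hpm] at hcm
    exact hA hcm
  -- all leaves of the star are not integral
  have hcc : ¬ N c / D c ∈ V := by
    rw [hpm] at hcm
    exact fun h => hA (hcm.2 h)
  have hall : ∀ j, π j = some c → ¬ N (b j) / D (b j) ∈ V := by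
    intro j hj h
    have h1 := hcol j
    rw [hj] at h1
    exact hcc (h1.1 h)
  -- lower bounds
  have key : ∀ t : ℕ, ∀ j : Fin (d + 1), (m : ℕ) - j = t → j ≤ m → π j = some c →
      V.valuation p ^ t ≤ V.valuation (a j) ∧ V.valuation (T j) < V.valuation (a j) := by
    intro t
    induction t using Nat.strong_induction_on with
    | _ t ih =>
      intro j hj hjm hjc
      rcases eq_or_lt_of_le hjm with h | h
      · subst h
        have ht : t = 0 := by omega
        subst ht
        rw [hm]
        refine ⟨by simp, (hTq j).trans_lt hp⟩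
      · obtain ⟨x, hx, hjx, hxm, hxc⟩ := zp9_nxt_spec π j m h (hpm.trans hjc.symm)
        have hjx' : (j : ℕ) < x := hjx
        have hxm' : (x : ℕ) ≤ m := hxm
        have hmd : (m : ℕ) < d + 1 := m.2
        have h1 := (ih ((m : ℕ) - x) (by omega) x rfl hxm (hxc.trans hjc)).1
        have h2 := hall j hjc
        rw [zp9_div V (hD0 _), not_le] at h2
        obtain ⟨y, hy, hNy⟩ := hN (b j)
        obtain ⟨y', hy', hDy⟩ := hD (b j)
        rw [hNy, hDy, (hleaf j).1, (hleaf j).2] at h2
        have e0 : sval p a ((zp9_nxt π j).map (fun x => (x, true))) = T j := rfl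
        have e1 : sval p a (some (j, false)) = a j := rfl
        rw [e0, e1] at h2
        have h3 : V.valuation p ^ ((m : ℕ) - x + 1) ≤ V.valuation (T j) := by
          rw [hTs j x hx, map_mul, pow_succ, mul_comm]
          exact mul_le_mul_right h1 _
        have h4 : V.valuation p ^ K < V.valuation (T j ^ e (b j)) := by
          rw [map_pow]
          exact (hK1 (b j) ((m : ℕ) - x + 1) (by omega)).trans_le
            (pow_le_pow_left' h3 _)
        rw [heq _ _ hy' h4] at h2
        have h5 := h2.trans_le (hub _ _ hy)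
        rw [lt_max_iff] at h5
        have h6 : V.valuation (T j ^ e (b j)) < V.valuation (a j ^ e (b j)) := by
          rcases h5 with h5 | h5
          · exact h5
          · exact absurd h5 (not_lt.2 h4.le)
        rw [map_pow, map_pow] at h6
        have h7 : V.valuation (T j) < V.valuation (a j) := lt_of_pow_lt_pow_left' _ h6
        refine ⟨?_, h7⟩
        refine le_trans ?_ h7.le
        refine le_trans ?_ h3
        exact pow_le_pow_right_of_le_one' hp.le (by omega)
  -- the centre is integral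
  apply hcc
  obtain ⟨j₁, hj₁, hmin, hsN, hsD⟩ := hcen c m hpm
  have hj₁m := hmin m hpm
  obtain ⟨h1, h2⟩ := key _ j₁ rfl hj₁m hj₁
  rw [zp9_div V (hD0 _)]
  obtain ⟨y, hy, hNy⟩ := hN c
  obtain ⟨y', hy', hDy⟩ := hD c
  rw [hNy, hDy, hsN, hsD]
  have e0 : sval p a ((zp9_nxt π j₁).map (fun x => (x, true))) = T j₁ := rfl
  have e1 : sval p a (some (j₁, false)) = a j₁ := rfl
  rw [e0, e1]
  have hmd : (m : ℕ) < d + 1 := m.2
  have h3 : V.valuation p ^ K < V.valuation (a j₁ ^ e c) := by
    rw [map_pow]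
    exact (hK1 c ((m : ℕ) - j₁) (by omega)).trans_le (pow_le_pow_left' h1 _)
  rw [heq _ _ hy' h3]
  refine (hub _ _ hy).trans (max_le ?_ h3.le)
  rw [map_pow, map_pow]
  exact pow_le_pow_left' h2.le _

end ZP38
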