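import Mathlib
import Pool.Agent.LibZP38.T8
import Pool.Agent.LibZP38.T9
import Pool.Agent.LibZP38.G10
import Pool.Agent.LibZP38.G11
import Pool.Agent.LibZP38.GV

/-! Assembly. -/

namespace ZP38

open UpperHalfPlane MvPolynomial

/-! ### Scaling -/

theorem zpm_scale {B : Subring ℂ} {σ : Type*} (F : MvPolynomial σ B) (a : ℕ) (hF : F.IsHomogeneous a)
    (t : ℂ) (z : σ → ℂ) :
    aeval (fun k => t * z k) F = t ^ a * aeval z F := by
  rw [aeval_def, aeval_def, eval₂_eq, eval₂_eq, Finset.mul_sum]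
  refine Finset.sum_congr rfl ?_
  intro s hs
  have h1 : s.degree = a := by
    have h0 := hF (mem_support_iff.1 hs)
    have h3 : (Finsupp.weight (1 : σ → ℕ)) s = s.degree :=
      (DFunLike.congr_fun (Finsupp.degree_eq_weight_one (R := ℕ)) s).symm
    rw [← h3]
    exact h0
  have h2 : ∏ i ∈ s.support, (t * z i) ^ s i = t ^ a * ∏ i ∈ s.support, z i ^ s i := by
    simp_rw [mul_pow]
    rw [Finset.prod_mul_distrib, Finset.prod_pow_eq_pow_sum]
    congr 2
  rw [h2]
  ring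

theorem zpm_onX {B : Subring ℂ} {m r : ℕ} (f : Fin r → MvPolynomial (Fin (m + 1)) B)
    (hf : ∀ k, ∃ a, (f k).IsHomogeneous a) (t : ℂ) (z : Fin (m + 1) → ℂ) (hz : OnX f z) :
    OnX f (fun k => t * z k) := by
  intro k
  obtain ⟨a, ha⟩ := hf k
  rw [zpm_scale (f k) a ha, hz k, mul_zero]

/-- Normalisation of a non zero vector at a valuation ring. -/
theorem zpm_norm {m : ℕ} (V : ValuationSubring ℂ) (z : Fin (m + 1) → ℂ) (hz : z ≠ 0) :
    ∃ t : ℂ, t ≠ 0 ∧ (∀ k, t * z k ∈ V) ∧ ∃ k, t * z k = 1 := by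
  obtain ⟨k, hk⟩ := Finite.exists_max (fun k => V.valuation (z k))
  have hzk : z k ≠ 0 := by
    intro h
    apply hz
    funext k'
    have h1 := hk k'
    rw [h, map_zero] at h1
    exact (V.valuation).zero_iff.1 (le_antisymm h1 zero_le)
  refine ⟨(z k)⁻¹, inv_ne_zero hzk, ?_, k, inv_mul_cancel₀ hzk⟩
  intro k'
  have h2 : (z k)⁻¹ * z k' = z k' / z k := by ring
  rw [h2, zp9_div V hzk]
  exact hk k'

/-- Some form is a unit at a normalised point. -/
theorem zpm_some_unit {B : Subring ℂ} {m d r : ℕ} (f : Fin r → MvPolynomial (Fin (m + 1)) B)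
    (L : Fin (d + 1) → MvPolynomial (Fin (m + 1)) B) (c : B)
    (hc : ∀ k : Fin (m + 1), ∃ (s : ℕ) (H : Fin (d + 1) → MvPolynomial (Fin (m + 1)) B),
      ∀ z : Fin (m + 1) → ℂ, OnX f z → (c : ℂ) * z k ^ s = ∑ l, aeval z (L l) * aeval z (H l))
    (V : ValuationSubring ℂ) (hBV : ∀ b : B, (b : ℂ) ∈ V) (hV : V.valuation (c : ℂ) = 1)
    (z : Fin (m + 1) → ℂ)
    (hz : OnX f z) (hzV : ∀ k, z k ∈ V) (hz1 : ∃ k, z k = 1) :
    ∃ l, V.valuation (aeval z (L l)) = 1 := by
  obtain ⟨k, hk⟩ := hz1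
  obtain ⟨s, H, hH⟩ := hc k
  have h1 := hH z hz
  rw [hk, one_pow, mul_one] at h1
  by_contra hcon
  push Not at hcon
  have h2 : ∀ l, V.valuation (aeval z (L l)) < 1 := fun l =>
    lt_of_le_of_ne ((V.valuation_le_one_iff _).2 (aeval_memB V hBV z hzV _)) (hcon l)
  have h3 : V.valuation (∑ l, aeval z (L l) * aeval z (H l)) < 1 := by
    refine V.valuation.map_sum_lt one_ne_zero ?_
    intro l _
    rw [map_mul]
    exact (mul_le_of_le_one_right' ((V.valuation_le_one_iff _).2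
      (aeval_memB V hBV z hzV _))).trans_lt (h2 l)
  rw [← h1, hV] at h3
  exact lt_irrefl _ h3

theorem zpm_homog {B : Subring ℂ} {m d : ℕ} (L : Fin (d + 1) → MvPolynomial (Fin (m + 1)) B)
    (hL : ∀ l, (L l).IsHomogeneous 1) (P : MvPolynomial (Fin (d + 1)) ℤ) (a : ℕ)
    (hP : P.IsHomogeneous a) (M : ℕ) (Z : MvPolynomial (Fin (m + 1)) B)
    (hZ : Z.IsHomogeneous a) : (aeval L P + M • Z).IsHomogeneous a := by
  have h0 := hP.aeval L hL
  rw [one_mul] at h0
  refine h0.add ?_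
  rw [nsmul_eq_mul]
  have h1 : ((M : ℕ) : MvPolynomial (Fin (m + 1)) B) = C ((M : ℕ) : B) := by simp
  rw [h1]
  have h2 := (isHomogeneous_C (Fin (m + 1)) ((M : ℕ) : B)).mul hZ
  simpa using h2

theorem main {m n d r : ℕ} (𝒯 : Set ℂ) (h𝒯 : AlgebraicIndependent ℚ ((↑) : 𝒯 → ℂ))
    (f : Fin r → MvPolynomial (Fin (m + 1)) (Bring 𝒯)) (hf : ∀ k, ∃ a, (f k).IsHomogeneous a)
    (L : Fin (d + 1) → MvPolynomial (Fin (m + 1)) (Bring 𝒯)) (hL : ∀ l, (L l).IsHomogeneous 1)
    (hX : ∀ z : Fin (m + 1) → ℂ, OnX f z → (∀ l, aeval z (L l) = 0) → z = 0)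
    (z₀ : Fin (m + 1) → ℂ) (hz₀ : z₀ ≠ 0) (hz₀X : OnX f z₀) (hz₀B : ∀ k, z₀ k ∈ Bring 𝒯)
    (e : Fin n → ℕ) (he : ∀ i, 0 < e i) (C₁ : ℕ) :
    ∃ (M : ℕ) (P Q : Fin n → MvPolynomial (Fin (d + 1)) ℤ), 0 < M ∧
      (∀ p : ℕ, p.Prime → p ∣ M → C₁ < p) ∧
      (∀ i, (P i).IsHomogeneous (e i)) ∧ (∀ i, (Q i).IsHomogeneous (e i)) ∧
      ∀ Z W : Fin n → MvPolynomial (Fin (m + 1)) (Bring 𝒯),
        (∀ i, (Z i).IsHomogeneous (e i)) → (∀ i, (W i).IsHomogeneous (e i)) →
        ∀ N D : Fin n → MvPolynomial (Fin (m + 1)) (Bring 𝒯),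
          (∀ i, N i = aeval L (P i) + M • Z i) → (∀ i, D i = aeval L (Q i) + M • W i) →
          (d ≤ n → ∀ z : Fin (m + 1) → ℂ, OnX f z →
            (∀ i : Fin n, (i : ℕ) < d → aeval z (N i) = 0) →
            (∃ i, aeval z (D i) = 0) → z = 0) ∧
          ((∀ i, aeval z₀ (D i) ≠ 0) ∧ ∀ τ : Fin n → ℍ,
            (∀ i, jfun (τ i) * aeval z₀ (D i) = aeval z₀ (N i)) →
            (∀ i, ¬ IsCM (τ i)) ∧ ∀ i k, i ≠ k → ¬ Isog (τ i) (τ k)) ∧
          ∀ z : Fin (m + 1) → ℂ, OnX f z → ∀ τ : Fin n → ℍ,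
            (∀ i, aeval z (D i) ≠ 0 ∧ jfun (τ i) * aeval z (D i) = aeval z (N i)) →
            n ≤ specialDim τ + d := by
  classical
  obtain ⟨c, hc0, hc⟩ := null_rel f L hX
  obtain ⟨l₀, hl₀⟩ : ∃ l, aeval z₀ (L l) ≠ 0 := by
    by_contra hcon
    push Not at hcon
    exact hz₀ (hX z₀ hz₀X hcon)
  set α : Bring 𝒯 := ⟨aeval z₀ (L l₀), aeval_B z₀ hz₀B _⟩ with hα
  have hα0 : α ≠ 0 := fun h => hl₀ (congrArg Subtype.val h)
  obtain ⟨C₀, hC₀⟩ := star 𝒯 h𝒯 (c * α) (mul_ne_zero hc0 hα0)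
  -- the patterns
  let E := {E : (Fin (d + 1) → Fin n) × (Fin (d + 1) → Option (Fin n)) //
    Function.Injective E.1 ∧ ∀ j k, E.2 j ≠ some (E.1 k)}
  let ι := Option (Option (Fin n)) ⊕ E
  have hpat : ∀ x : E, ∃ σ : (Fin n → Option (Fin (d + 1) × Bool)) ×
      (Fin n → Option (Fin (d + 1) × Bool)),
      ∀ (V : ValuationSubring ℂ) (p : ℂ) (e : Fin n → ℕ) (K : ℕ) (a : Fin (d + 1) → ℂ)
        (N D : Fin n → ℂ), V.valuation p < 1 → p ≠ 0 → (∀ i, 0 < e i) →
        (∀ i, (d + 2) * e i < K) → (∀ j, a j ∈ V) → (∃ j, V.valuation (a j) = 1) →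
        (∀ i, ∃ y ∈ V, N i = sval p a (σ.1 i) ^ e i + p ^ K * y) →
        (∀ i, ∃ y ∈ V, D i = sval p a (σ.2 i) ^ e i + p ^ K * y) →
        (∀ i, D i ≠ 0) → ¬ ∀ j, ColEdge V N D (x.1.1 j) (x.1.2 j) := by
    intro x
    obtain ⟨σN, σD, h⟩ := pattern_exists n d x.1.1 x.2.1 x.1.2 x.2.2
    exact ⟨(σN, σD), h⟩
  choose σ hσ using hpat
  let SN : ι → Fin n → Option (Fin (d + 1) × Bool) := fun x i =>
    match x with
    | Sum.inl none => if h : (i : ℕ) < d then some (⟨(i : ℕ) + 1, by omega⟩, false) else none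
    | Sum.inl (some none) => none
    | Sum.inl (some (some i₀)) => if i = i₀ then some (l₀, false) else none
    | Sum.inr x => (σ x).1 i
  let SD : ι → Fin n → Option (Fin (d + 1) × Bool) := fun x i =>
    match x with
    | Sum.inl none => some (0, false)
    | Sum.inl (some none) => some (l₀, false)
    | Sum.inl (some (some i₀)) => if i = i₀ then none else some (l₀, false)
    | Sum.inr x => (σ x).2 i
  obtain ⟨q, hqinj, hq⟩ := exists_primes (ι := ι) (max C₀ C₁)
  have hqp : ∀ x, (q x).Prime := fun x => (hq x).1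
  set K : ℕ := (d + 2) * (∑ i, e i) + 1 with hK
  have hKe : ∀ i, (d + 2) * e i < K := by
    intro i
    have h1 : e i ≤ ∑ i, e i := Finset.single_le_sum (fun _ _ => Nat.zero_le _) (Finset.mem_univ i)
    have h2 := Nat.mul_le_mul_left (d + 2) h1
    omega
  obtain ⟨P, hPh, hP⟩ := combine q hqp hqinj K e SN
  obtain ⟨Q, hQh, hQ⟩ := combine q hqp hqinj K e SD
  choose V hBV hV hVc using fun x => hC₀ (q x) (hqp x) ((le_max_left _ _).trans_lt (hq x).2)
  refine ⟨∏ x, (q x) ^ K, P, Q, Finset.prod_pos (fun x _ => pow_pos (hqp x).pos _), ?_, hPh, hQh,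
    ?_⟩
  · intro p hp hpM
    obtain ⟨x, _, hx⟩ := (hp.prime.dvd_finsetProd_iff _).1 hpM
    have h1 : p ∣ q x := hp.dvd_of_dvd_pow hx
    have h2 : p = q x := (Nat.prime_dvd_prime_iff_eq hp (hqp x)).1 h1
    have h3 := (hq x).2
    omega
  intro Z W hZ hW N D hN hD
  -- values of `N` and `D` at integral points
  have hM : ∀ x, ∃ R : ℕ, ∏ x, (q x) ^ K = (q x) ^ K * R := by
    intro x
    obtain ⟨R, hR⟩ := Finset.dvd_prod_of_mem (fun x => (q x) ^ K) (Finset.mem_univ x)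
    exact ⟨R, hR⟩
  have hNval : ∀ x (z : Fin (m + 1) → ℂ), (∀ k, z k ∈ V x) → ∀ i, ∃ y ∈ V x,
      aeval z (N i) = sval (q x : ℂ) (fun l => aeval z (L l)) (SN x i) ^ e i +
        (q x : ℂ) ^ K * y := by
    intro x z hz i
    obtain ⟨Y, hY⟩ := hP x i
    obtain ⟨R, hR⟩ := hM x
    refine ⟨aeval (fun l => aeval z (L l)) Y + R * aeval z (Z i), ?_, ?_⟩
    · exact add_mem (aeval_memZ _ _ (fun l => aeval_memB _ (hBV x) z hz _) _)
        (mul_mem (natCast_mem _ _) (aeval_memB _ (hBV x) z hz _))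
    · rw [hN i, map_add, aeval_aeval, hY, hR, ← aeval_spolZ]
      simp only [map_add, map_mul, map_pow, map_natCast, nsmul_eq_mul]
      push_cast
      ring
  have hDval : ∀ x (z : Fin (m + 1) → ℂ), (∀ k, z k ∈ V x) → ∀ i, ∃ y ∈ V x,
      aeval z (D i) = sval (q x : ℂ) (fun l => aeval z (L l)) (SD x i) ^ e i +
        (q x : ℂ) ^ K * y := by
    intro x z hz i
    obtain ⟨Y, hY⟩ := hQ x i
    obtain ⟨R, hR⟩ := hM x
    refine ⟨aeval (fun l => aeval z (L l)) Y + R * aeval z (W i), ?_, ?_⟩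
    · exact add_mem (aeval_memZ _ _ (fun l => aeval_memB _ (hBV x) z hz _) _)
        (mul_mem (natCast_mem _ _) (aeval_memB _ (hBV x) z hz _))
    · rw [hD i, map_add, aeval_aeval, hY, hR, ← aeval_spolZ]
      simp only [map_add, map_mul, map_pow, map_natCast, nsmul_eq_mul]
      push_cast
      ring
  have hNh : ∀ i, (N i).IsHomogeneous (e i) := by
    intro i
    rw [hN i]
    exact zpm_homog L hL (P i) (e i) (hPh i) _ (Z i) (hZ i)
  have hDh : ∀ i, (D i).IsHomogeneous (e i) := by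
    intro i
    rw [hD i]
    exact zpm_homog L hL (Q i) (e i) (hQh i) _ (W i) (hW i)
  -- small facts on valuations
  have hqK : ∀ x y, y ∈ V x → (V x).valuation ((q x : ℂ) ^ K * y) < 1 := by
    intro x y hy
    rw [map_mul, map_pow]
    refine (mul_le_of_le_one_right' (((V x).valuation_le_one_iff _).2 hy)).trans_lt ?_
    exact pow_lt_one₀ zero_le (hV x) (by omega)
  have hunit : ∀ x (t y : ℂ), y ∈ V x → (V x).valuation t = 1 →
      (V x).valuation (t + (q x : ℂ) ^ K * y) = 1 := by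
    intro x t y hy ht
    rw [(V x).valuation.map_add_eq_of_lt_left, ht]
    rw [ht]
    exact hqK x y hy
  have hcα : ∀ x, (V x).valuation (c : ℂ) = 1 ∧ (V x).valuation (α : ℂ) = 1 := by
    intro x
    have h1 := hVc x
    have h2 : ((c * α : Bring 𝒯) : ℂ) = (c : ℂ) * (α : ℂ) := rfl
    rw [h2, map_mul] at h1
    have h3 : (V x).valuation (c : ℂ) ≤ 1 := ((V x).valuation_le_one_iff _).2 (hBV x c)
    have h4 : (V x).valuation (α : ℂ) ≤ 1 := ((V x).valuation_le_one_iff _).2 (hBV x α)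
    refine ⟨le_antisymm h3 ?_, le_antisymm h4 ?_⟩
    · calc (1 : (V x).ValueGroup) = (V x).valuation (c : ℂ) * (V x).valuation (α : ℂ) := h1.symm
        _ ≤ (V x).valuation (c : ℂ) := mul_le_of_le_one_right' h4
    · calc (1 : (V x).ValueGroup) = (V x).valuation (c : ℂ) * (V x).valuation (α : ℂ) := h1.symm
        _ ≤ (V x).valuation (α : ℂ) := mul_le_of_le_one_left' h3
  have hone : ∀ x, (V x).valuation (c : ℂ) = 1 := fun x => (hcα x).1
  have hL₀ : ∀ x, (V x).valuation (aeval z₀ (L l₀)) = 1 := fun x => (hcα x).2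
  have hz₀V : ∀ x k, z₀ k ∈ V x := fun x k => hBV x ⟨z₀ k, hz₀B k⟩
  refine ⟨?_, ⟨?_, ?_⟩, ?_⟩
  · -- finiteness certificate
    intro hdn z hzX hNz ⟨i₀, hDz⟩
    by_contra hz
    set x : ι := Sum.inl none with hx
    obtain ⟨t, ht0, htV, ht1⟩ := zpm_norm (V x) z hz
    set z' : Fin (m + 1) → ℂ := fun k => t * z k with hz'
    obtain ⟨l, hl⟩ := zpm_some_unit f L c hc (V x) (hBV x) (hone x) z' (zpm_onX f hf t z hzX) htV ht1
    rcases Fin.eq_zero_or_eq_succ l with h0 | ⟨l', hl'⟩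
    · obtain ⟨y, hy, hyD⟩ := hDval x z' htV i₀
      rw [hz', zpm_scale _ _ (hDh i₀), hDz, mul_zero] at hyD
      have h1 : (V x).valuation ((aeval z' (L 0)) ^ e i₀) = 1 := by
        rw [map_pow, ← h0, hl, one_pow]
      have h2 := hunit x _ y hy h1
      have h3 : (aeval z' (L 0)) ^ e i₀ + (q x : ℂ) ^ K * y = 0 := hyD.symm
      rw [h3, map_zero] at h2
      exact zero_ne_one h2
    · have hl'd : (l' : ℕ) < d := l'.2
      set i : Fin n := ⟨l', by omega⟩ with hi
      obtain ⟨y, hy, hyN⟩ := hNval x z' htV i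
      rw [hz', zpm_scale _ _ (hNh i), hNz i hl'd, mul_zero] at hyN
      have hS : SN x i = some (l, false) := by
        have h0 : SN x i = (if h : (i : ℕ) < d then
          some ((⟨(i : ℕ) + 1, by omega⟩ : Fin (d + 1)), false) else none) := rfl
        rw [h0, dif_pos hl'd, hl']
        rfl
      rw [hS] at hyN
      have h1 : (V x).valuation ((aeval z' (L l)) ^ e i) = 1 := by
        rw [map_pow, hl, one_pow]
      have h2 := hunit x _ y hy h1
      have h3 : (aeval z' (L l)) ^ e i + (q x : ℂ) ^ K * y = 0 := hyN.symm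
      rw [h3, map_zero] at h2
      exact zero_ne_one h2
  · -- the denominators do not vanish at `z₀`
    intro i h0
    set x : ι := Sum.inl (some none) with hx
    obtain ⟨y, hy, hyD⟩ := hDval x z₀ (hz₀V x) i
    have h1 : (V x).valuation ((aeval z₀ (L l₀)) ^ e i) = 1 := by
      rw [map_pow, hL₀ x, one_pow]
    have h2 := hunit x _ y hy h1
    have h3 : aeval z₀ (D i) = (aeval z₀ (L l₀)) ^ e i + (q x : ℂ) ^ K * y := hyD
    rw [← h3, h0, map_zero] at h2
    exact zero_ne_one h2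
  · -- no special relation at `z₀`
    intro τ hτ
    have hτ₁ : ∀ i, jfun (τ i) * aeval z₀ (D i) = aeval z₀ (N i) := hτ
    have hnot : ∀ i, jfun (τ i) ∉ V (Sum.inl (some (some i))) := by
      intro i hmem
      set x : ι := Sum.inl (some (some i)) with hx
      obtain ⟨y, hy, hyN⟩ := hNval x z₀ (hz₀V x) i
      obtain ⟨y', hy', hyD⟩ := hDval x z₀ (hz₀V x) i
      have hSN : SN x i = some (l₀, false) := by
        show (if i = i then some (l₀, false) else none) = _
        rw [if_pos rfl]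
      have hSD : SD x i = none := by
        show (if i = i then none else some (l₀, false)) = _
        rw [if_pos rfl]
      rw [hSN] at hyN
      rw [hSD] at hyD
      have h1 : (V x).valuation ((aeval z₀ (L l₀)) ^ e i) = 1 := by
        rw [map_pow, hL₀ x, one_pow]
      have h2 := hunit x _ y hy h1
      have h3 : aeval z₀ (N i) = (aeval z₀ (L l₀)) ^ e i + (q x : ℂ) ^ K * y := hyN
      have h4 : aeval z₀ (D i) = (q x : ℂ) ^ K * y' := by
        rw [hyD]
        show (0 : ℂ) ^ e i + _ = _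
        rw [zero_pow (he i).ne', zero_add]
      have h5 := hτ₁ i
      rw [← h3, ← h5, map_mul] at h2
      have h6 := ((V x).valuation_le_one_iff _).2 hmem
      have h7 : (V x).valuation (aeval z₀ (D i)) < 1 := by
        rw [h4]
        exact hqK x y' hy'
      have h8 : (V x).valuation (jfun (τ i)) * (V x).valuation (aeval z₀ (D i)) < 1 :=
        (mul_le_of_le_one_left' h6).trans_lt h7
      rw [h2] at h8
      exact lt_irrefl _ h8
    refine ⟨fun i hi => hnot i (colour_cm _ hi), ?_⟩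
    intro i k hik hiso
    apply hnot i
    rw [colour_isog _ hiso]
    set x : ι := Sum.inl (some (some i)) with hx
    obtain ⟨y, hy, hyN⟩ := hNval x z₀ (hz₀V x) k
    obtain ⟨y', hy', hyD⟩ := hDval x z₀ (hz₀V x) k
    have hSD : SD x k = some (l₀, false) := by
      show (if k = i then none else some (l₀, false)) = _
      rw [if_neg (fun h => hik h.symm)]
    have hSN : SN x k = none := by
      show (if k = i then some (l₀, false) else none) = _
      rw [if_neg (fun h => hik h.symm)]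
    rw [hSN] at hyN
    rw [hSD] at hyD
    have h1 : (V x).valuation ((aeval z₀ (L l₀)) ^ e k) = 1 := by
      rw [map_pow, hL₀ x, one_pow]
    have h2 := hunit x _ y' hy' h1
    have h3 : aeval z₀ (D k) = (aeval z₀ (L l₀)) ^ e k + (q x : ℂ) ^ K * y' := hyD
    rw [← h3] at h2
    have h4 : aeval z₀ (N k) = (q x : ℂ) ^ K * y := by
      rw [hyN]
      show (0 : ℂ) ^ e k + _ = _
      rw [zero_pow (he k).ne', zero_add]
    have h5 := hτ₁ k
    have h6 : (V x).valuation (jfun (τ k)) = (V x).valuation (aeval z₀ (N k)) := by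
      rw [← h5, map_mul, h2, mul_one]
    rw [← (V x).valuation_le_one_iff, h6, h4]
    exact (hqK x y hy).le
  · -- Zilber-Pink
    intro z hzX τ hτ
    by_contra hcon
    have hlt : specialDim τ + d < n := by omega
    obtain ⟨b, π, hb, hπ, hedge⟩ := exists_forest τ hlt
    have hn : 0 < n := by omega
    have hz : z ≠ 0 := by
      intro h
      have h1 := (hτ ⟨0, hn⟩).1
      apply h1
      have h2 := zpm_scale (D ⟨0, hn⟩) _ (hDh ⟨0, hn⟩) 0 z
      rw [zero_pow (he _).ne', zero_mul] at h2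
      have h3 : (fun k => 0 * z k) = z := by
        rw [h]
        funext k
        simp
      rwa [h3] at h2
    set x' : E := ⟨(b, π), hb, hπ⟩ with hx'
    set x : ι := Sum.inr x' with hx
    obtain ⟨t, ht0, htV, ht1⟩ := zpm_norm (V x) z hz
    set z' : Fin (m + 1) → ℂ := fun k => t * z k with hz'
    obtain ⟨l, hl⟩ := zpm_some_unit f L c hc (V x) (hBV x) (hone x) z' (zpm_onX f hf t z hzX) htV ht1
    have hD0 : ∀ i, aeval z' (D i) ≠ 0 := by
      intro i
      rw [hz', zpm_scale _ _ (hDh i)]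
      exact mul_ne_zero (pow_ne_zero _ ht0) (hτ i).1
    have hj : ∀ i, aeval z' (N i) / aeval z' (D i) = jfun (τ i) := by
      intro i
      rw [div_eq_iff (hD0 i), hz', zpm_scale _ _ (hDh i), zpm_scale _ _ (hNh i), ← (hτ i).2]
      ring
    refine hσ x' (V x) (q x : ℂ) e K (fun l => aeval z' (L l)) (fun i => aeval z' (N i))
      (fun i => aeval z' (D i)) (hV x) (by exact_mod_cast (hqp x).ne_zero) he hKe
      (fun l => aeval_memB _ (hBV x) _ htV _) ⟨l, hl⟩ (hNval x z' htV) (hDval x z' htV) hD0 ?_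
    intro j
    have hej := hedge j
    show ColEdge (V x) (fun i => aeval z' (N i)) (fun i => aeval z' (D i)) (b j) (π j)
    rcases hπj : π j with _ | c'
    · rw [hπj] at hej
      show aeval z' (N (b j)) / aeval z' (D (b j)) ∈ V x
      rw [hj]
      exact colour_cm _ hej
    · rw [hπj] at hej
      show (aeval z' (N (b j)) / aeval z' (D (b j)) ∈ V x ↔ aeval z' (N c') / aeval z' (D c') ∈ V x)
      rw [hj, hj]
      exact (colour_isog _ hej).symm

end ZP38
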