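import Mathlib
import Pool.Agent.LibZP38.GMain

/-! Final form of the statement. -/

namespace ZP38

open UpperHalfPlane MvPolynomial

theorem final {m n d r : ℕ} (𝒯 : Set ℂ) (h𝒯 : AlgebraicIndependent ℚ ((↑) : 𝒯 → ℂ))
    (f : Fin r → Poly 𝒯 m) (hf : ∀ k, ∃ a, (f k).IsHomogeneous a)
    (L : Fin (d + 1) → Poly 𝒯 m) (hL : ∀ l, (L l).IsHomogeneous 1)
    (hX : ∀ z : Fin (m + 1) → ℂ, OnX f z → (∀ l, aeval z (L l) = 0) → z = 0)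
    (z₀ : Fin (m + 1) → ℂ) (hz₀ : z₀ ≠ 0) (hz₀X : OnX f z₀) (hz₀B : ∀ k, z₀ k ∈ Bring 𝒯)
    (e : Fin n → ℕ) (he : ∀ i, 0 < e i) (C₁ : ℕ) :
    ∃ (M : ℕ) (P Q : Fin n → MvPolynomial (Fin (d + 1)) ℤ), 0 < M ∧
      (∀ p : ℕ, p.Prime → p ∣ M → C₁ < p) ∧
      (∀ i, (P i).IsHomogeneous (e i) ∧ (Q i).IsHomogeneous (e i)) ∧
      ∀ N D : Fin n → Poly 𝒯 m, InClass L e M P Q N D →
        (d ≤ n → FiniteCert f N D d) ∧ GenericAt N D z₀ ∧ NoUnlikely f N D d := by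
  obtain ⟨M, P, Q, hM, hM', hP, hQ, h⟩ := main 𝒯 h𝒯 f hf L hL hX z₀ hz₀ hz₀X hz₀B e he C₁
  refine ⟨M, P, Q, hM, hM', fun i => ⟨hP i, hQ i⟩, ?_⟩
  rintro N D ⟨Z, W, hZW, hND⟩
  obtain ⟨h1, ⟨h2, h3⟩, h4⟩ := h Z W (fun i => (hZW i).1) (fun i => (hZW i).2) N D
    (fun i => (hND i).1) (fun i => (hND i).2)
  exact ⟨h1, ⟨h2, fun τ hτ => h3 τ (fun i => (hτ i).2)⟩, fun z τ hz hτ => h4 z hz τ hτ⟩

end ZP38
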